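import Pool.Agent.Q134.SE.Chi

/-!
The Euler characteristic of the right-angled Coxeter group under the contraction of an edge.
-/

set_option autoImplicit false
set_option linter.unusedSectionVars false

open scoped Classical

namespace Pool.Agent.Q134.SV

open Pool.Agent.W907.SG Pool.Agent.Q134.SE

/-- the edge `s t` is not contained in an induced cycle `s t x y` of length four -/
def NoSquare {V : Type} (G : SimpleGraph V) (s t : V) : Prop :=
  ∀ x y, x ≠ s → y ≠ t → G.Adj t x → G.Adj x y → G.Adj y s → G.Adj s x ∨ G.Adj t y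

/-- `f` is the contraction of the edge `s t`: it identifies `s` and `t` and nothing else, and the
edges of `G₀` are the images of the edges of `G` (except `s t`) -/
structure IsContr {V V₀ : Type} (G : SimpleGraph V) (G₀ : SimpleGraph V₀) (f : V → V₀) (s t : V) :
    Prop where
  surj : Function.Surjective f
  eq : f s = f t
  inj : ∀ x y, f x = f y → x = y ∨ ((x = s ∨ x = t) ∧ (y = s ∨ y = t))
  adj : ∀ x' y', G₀.Adj x' y' ↔ x' ≠ y' ∧ ∃ x y, f x = x' ∧ f y = y' ∧ G.Adj x y

variable {V V₀ : Type} [Fintype V] [Fintype V₀] {G : SimpleGraph V} {G₀ : SimpleGraph V₀}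
  {f : V → V₀} {s t : V}

lemma IsContr.adj_iff (h : IsContr G G₀ f s t) {x y : V} (hxs : x ≠ s) (hxt : x ≠ t)
    (hys : y ≠ s) (hyt : y ≠ t) : G₀.Adj (f x) (f y) ↔ G.Adj x y := by
  rw [h.adj]
  constructor
  · rintro ⟨-, x', y', hx', hy', hadj⟩
    rcases h.inj _ _ hx' with rfl | ⟨-, hc | hc⟩
    · rcases h.inj _ _ hy' with rfl | ⟨-, hc | hc⟩
      · exact hadj
      · exact absurd hc hys
      · exact absurd hc hyt
    · exact absurd hc hxs
    · exact absurd hc hxt
  · intro hadj
    refine ⟨fun he => ?_, x, y, rfl, rfl, hadj⟩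
    rcases h.inj _ _ he with rfl | ⟨hc | hc, -⟩
    · exact hadj.ne rfl
    · exact absurd hc hxs
    · exact absurd hc hxt

lemma IsContr.adj_s_iff (h : IsContr G G₀ f s t) {x : V} (hxs : x ≠ s) (hxt : x ≠ t) :
    G₀.Adj (f s) (f x) ↔ G.Adj s x ∨ G.Adj t x := by
  rw [h.adj]
  constructor
  · rintro ⟨-, x', y', hx', hy', hadj⟩
    have hy : y' = x := by
      rcases h.inj _ _ hy' with hc | ⟨-, hc | hc⟩
      · exact hc
      · exact absurd hc hxs
      · exact absurd hc hxt
    subst hy
    rcases h.inj _ _ hx' with rfl | ⟨hc | hc, -⟩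
    · exact Or.inl hadj
    · subst hc; exact Or.inl hadj
    · subst hc; exact Or.inr hadj
  · intro hadj
    have hne : f s ≠ f x := by
      intro he
      rcases h.inj _ _ he with hc | ⟨-, hc | hc⟩
      · exact hxs hc.symm
      · exact hxs hc
      · exact hxt hc
    refine ⟨hne, ?_⟩
    rcases hadj with hadj | hadj
    · exact ⟨s, x, rfl, rfl, hadj⟩
    · exact ⟨t, x, h.eq.symm, rfl, hadj⟩

lemma IsContr.injOn (h : IsContr G G₀ f s t) {T : Finset V} (hs : s ∉ T) (ht : t ∉ T) :
    Set.InjOn f (T : Set V) := by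
  intro x hx y hy he
  rcases h.inj _ _ he with hc | ⟨hc | hc, -⟩
  · exact hc
  · exact absurd (hc ▸ Finset.mem_coe.1 hx) hs
  · exact absurd (hc ▸ Finset.mem_coe.1 hx) ht

lemma IsContr.fs_notMem (h : IsContr G G₀ f s t) {T : Finset V} (hs : s ∉ T) (ht : t ∉ T) :
    f s ∉ T.image f := by
  intro hm
  obtain ⟨x, hx, he⟩ := Finset.mem_image.1 hm
  rcases h.inj _ _ he with hc | ⟨hc | hc, -⟩
  · exact hs (hc ▸ hx)
  · exact hs (hc ▸ hx)
  · exact ht (hc ▸ hx)

/-- the sum over the subsets of the contraction -/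
lemma IsContr.sum_eq (h : IsContr G G₀ f s t) (F : Finset V₀ → ℚ) :
    ∑ T : Finset V₀, F T = ∑ T ∈ ((Finset.univ.erase t).erase s).powerset,
      (F (T.image f) + F (insert (f s) (T.image f))) := by
  have h1 : (Finset.univ : Finset (Finset V₀)) = (Finset.univ : Finset V₀).powerset := by
    ext; simp
  have h2 : (Finset.univ : Finset V₀) = insert (f s) (Finset.univ.erase (f s)) := by simp
  rw [h1, h2, Finset.sum_powerset_insert (Finset.notMem_erase _ _), ← Finset.sum_add_distrib]
  symm
  refine Finset.sum_bij (fun T _ => T.image f) ?_ ?_ ?_ ?_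
  · intro T hT
    rw [Finset.mem_powerset] at hT ⊢
    have hs : s ∉ T := fun h' => by simpa using hT h'
    have ht : t ∉ T := fun h' => by simpa using hT h'
    intro x hx
    rw [Finset.mem_erase]
    exact ⟨fun e => h.fs_notMem hs ht (e ▸ hx), Finset.mem_univ _⟩
  · intro T hT T' hT' he
    rw [Finset.mem_powerset] at hT hT'
    have hs : s ∉ T ∪ T' := fun h' => by
      rcases Finset.mem_union.1 h' with h' | h'
      · simpa using hT h'
      · simpa using hT' h'
    have ht : t ∉ T ∪ T' := fun h' => by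
      rcases Finset.mem_union.1 h' with h' | h'
      · simpa using hT h'
      · simpa using hT' h'
    have hinj := h.injOn hs ht
    ext x
    constructor
    · intro hx
      have : f x ∈ T'.image f := he ▸ Finset.mem_image_of_mem f hx
      obtain ⟨y, hy, hyx⟩ := Finset.mem_image.1 this
      have := hinj (by simp [hy]) (by simp [hx]) hyx
      exact this ▸ hy
    · intro hx
      have : f x ∈ T.image f := he ▸ Finset.mem_image_of_mem f hx
      obtain ⟨y, hy, hyx⟩ := Finset.mem_image.1 this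
      have := hinj (by simp [hy]) (by simp [hx]) hyx
      exact this ▸ hy
  · intro T₀ hT₀
    rw [Finset.mem_powerset] at hT₀
    refine ⟨Finset.univ.filter fun x => f x ∈ T₀, ?_, ?_⟩
    · rw [Finset.mem_powerset]
      intro x hx
      rw [Finset.mem_filter] at hx
      have hx2 := hT₀ hx.2
      rw [Finset.mem_erase] at hx2
      rw [Finset.mem_erase, Finset.mem_erase]
      refine ⟨fun e => hx2.1 (by rw [e]), fun e => hx2.1 (by rw [e, h.eq]), Finset.mem_univ _⟩
    · ext y
      rw [Finset.mem_image]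
      constructor
      · rintro ⟨x, hx, rfl⟩
        exact (Finset.mem_filter.1 hx).2
      · intro hy
        obtain ⟨x, rfl⟩ := h.surj y
        exact ⟨x, by simp [hy], rfl⟩
  · intro T _
    rfl

lemma tm_insert {U : Type} (G : SimpleGraph U) {T : Finset U} {x : U} (hx : x ∉ T) :
    tm G (insert x T) = if ∀ a ∈ T, G.Adj x a then (-1 / 2) * tm G T else 0 := by
  have hcl : G.IsClique ((insert x T : Finset U) : Set U) ↔
      G.IsClique (T : Set U) ∧ ∀ a ∈ T, G.Adj x a := by
    rw [Finset.coe_insert, SimpleGraph.isClique_insert]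
    refine and_congr_right fun _ => ?_
    constructor
    · intro h a ha
      exact h a ha (fun e => hx (e ▸ ha))
    · intro h b hb _
      exact h b hb
  unfold tm
  by_cases h1 : ∀ a ∈ T, G.Adj x a
  · rw [if_pos h1]
    by_cases h2 : G.IsClique (T : Set U)
    · rw [if_pos (hcl.2 ⟨h2, h1⟩), if_pos h2, Finset.card_insert_of_notMem hx, pow_succ]; ring
    · rw [if_neg (fun h => h2 (hcl.1 h).1), if_neg h2, mul_zero]
  · rw [if_neg (fun h => h1 (hcl.1 h).2), if_neg h1]

/-- **The Euler characteristic of a contraction.** -/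
theorem chiW_contr (h : IsContr G G₀ f s t) (hst : G.Adj s t) (hsq : NoSquare G s t)
    [Fintype ↥(G.neighborSet s ∩ G.neighborSet t)] :
    chiW G = chiW G₀ - 1 / 4 * chiW (G.induce (G.neighborSet s ∩ G.neighborSet t)) := by
  have hne : s ≠ t := hst.ne
  rw [chiW_eq G, sum_two hne, chiW_eq G₀, h.sum_eq, chiW_induce, sum_two hne, Finset.mul_sum,
    ← Finset.sum_sub_distrib]
  refine Finset.sum_congr rfl fun T hT => ?_
  have hs : s ∉ T := fun h' => by
    have := Finset.mem_powerset.1 hT h'
    simp at this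
  have ht : t ∉ T := fun h' => by
    have := Finset.mem_powerset.1 hT h'
    simp at this
  have hts : t ∉ insert s T := by
    rw [Finset.mem_insert]
    rintro (h' | h')
    · exact hne h'.symm
    · exact ht h'
  have hK2 : ¬ ((insert s T : Finset V) : Set V) ⊆ G.neighborSet s ∩ G.neighborSet t := fun h' => by
    have := (h' (Finset.mem_coe.2 (Finset.mem_insert_self s T))).1
    exact G.loopless.irrefl s this
  have hK3 : ¬ ((insert t T : Finset V) : Set V) ⊆ G.neighborSet s ∩ G.neighborSet t := fun h' => by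
    have := (h' (Finset.mem_coe.2 (Finset.mem_insert_self t T))).2
    exact G.loopless.irrefl t this
  have hK4 : ¬ ((insert t (insert s T) : Finset V) : Set V) ⊆
      G.neighborSet s ∩ G.neighborSet t := fun h' => by
    have := (h' (Finset.mem_coe.2 (Finset.mem_insert_self t _))).2
    exact G.loopless.irrefl t this
  rw [if_neg hK2, if_neg hK3, if_neg hK4, tm_insert G hts, tm_insert G hs, tm_insert G ht,
    tm_insert G₀ (h.fs_notMem hs ht)]
  have e1 : tm G₀ (T.image f) = tm G T := by
    unfold tm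
    rw [Finset.card_image_of_injOn (h.injOn hs ht)]
    have : G₀.IsClique ((T.image f : Finset V₀) : Set V₀) ↔ G.IsClique (T : Set V) := by
      rw [Finset.coe_image, SimpleGraph.isClique_iff, SimpleGraph.isClique_iff, Set.Pairwise,
        Set.Pairwise]
      constructor
      · intro h' x hx y hy hxy
        have hx' : x ≠ s ∧ x ≠ t := ⟨fun e => hs (e ▸ hx), fun e => ht (e ▸ hx)⟩
        have hy' : y ≠ s ∧ y ≠ t := ⟨fun e => hs (e ▸ hy), fun e => ht (e ▸ hy)⟩
        exact (h.adj_iff hx'.1 hx'.2 hy'.1 hy'.2).1 (h' ⟨x, hx, rfl⟩ ⟨y, hy, rfl⟩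
          (fun e => hxy (h.injOn hs ht hx hy e)))
      · rintro h' _ ⟨x, hx, rfl⟩ _ ⟨y, hy, rfl⟩ hxy
        have hx' : x ≠ s ∧ x ≠ t := ⟨fun e => hs (e ▸ hx), fun e => ht (e ▸ hx)⟩
        have hy' : y ≠ s ∧ y ≠ t := ⟨fun e => hs (e ▸ hy), fun e => ht (e ▸ hy)⟩
        exact (h.adj_iff hx'.1 hx'.2 hy'.1 hy'.2).2 (h' hx hy (fun e => hxy (by rw [e])))
    simp only [this]
  rw [e1]
  by_cases hcl : G.IsClique (T : Set V)
  · have hu : (∀ a ∈ T.image f, G₀.Adj (f s) a) ↔
        (∀ a ∈ T, G.Adj s a) ∨ (∀ a ∈ T, G.Adj t a) := by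
      constructor
      · intro h'
        by_contra hc
        push Not at hc
        obtain ⟨⟨x, hx, hsx⟩, y, hy, hty⟩ := hc
        have hx' : x ≠ s ∧ x ≠ t := ⟨fun e => hs (e ▸ hx), fun e => ht (e ▸ hx)⟩
        have hy' : y ≠ s ∧ y ≠ t := ⟨fun e => hs (e ▸ hy), fun e => ht (e ▸ hy)⟩
        have h1 := (h.adj_s_iff hx'.1 hx'.2).1 (h' _ (Finset.mem_image_of_mem f hx))
        have h2 := (h.adj_s_iff hy'.1 hy'.2).1 (h' _ (Finset.mem_image_of_mem f hy))
        have htx : G.Adj t x := h1.resolve_left hsx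
        have hsy : G.Adj s y := h2.resolve_right hty
        have hxy : x ≠ y := fun e => hsx (e ▸ hsy)
        rcases hsq x y hx'.1 hy'.2 htx (hcl hx hy hxy) hsy.symm with h3 | h3
        · exact hsx h3
        · exact hty h3
      · rintro (h' | h') a ha
        · obtain ⟨x, hx, rfl⟩ := Finset.mem_image.1 ha
          exact (h.adj_s_iff (fun e => hs (e ▸ hx)) (fun e => ht (e ▸ hx))).2 (Or.inl (h' x hx))
        · obtain ⟨x, hx, rfl⟩ := Finset.mem_image.1 ha
          exact (h.adj_s_iff (fun e => hs (e ▸ hx)) (fun e => ht (e ▸ hx))).2 (Or.inr (h' x hx))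
    have hts' : (∀ a ∈ insert s T, G.Adj t a) ↔ ∀ a ∈ T, G.Adj t a := by
      constructor
      · intro h' a ha
        exact h' a (Finset.mem_insert_of_mem ha)
      · intro h' a ha
        rcases Finset.mem_insert.1 ha with rfl | ha
        · exact hst.symm
        · exact h' a ha
    have hK : (T : Set V) ⊆ G.neighborSet s ∩ G.neighborSet t ↔
        (∀ a ∈ T, G.Adj s a) ∧ (∀ a ∈ T, G.Adj t a) := by
      constructor
      · intro h'
        exact ⟨fun a ha => (h' ha).1, fun a ha => (h' ha).2⟩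
      · intro h' a ha
        exact ⟨h'.1 a ha, h'.2 a ha⟩
    by_cases h1 : ∀ a ∈ T, G.Adj s a
    · by_cases h2 : ∀ a ∈ T, G.Adj t a
      · rw [if_pos h1, if_pos h2, if_pos (hts'.2 h2), if_pos (hu.2 (Or.inl h1)),
          if_pos (hK.2 ⟨h1, h2⟩)]; ring
      · rw [if_pos h1, if_neg h2, if_neg (fun h' => h2 (hts'.1 h')), if_pos (hu.2 (Or.inl h1)),
          if_neg (fun h' => h2 (hK.1 h').2)]; ring
    · by_cases h2 : ∀ a ∈ T, G.Adj t a
      · rw [if_neg h1, if_pos h2, if_pos (hts'.2 h2), if_pos (hu.2 (Or.inr h2)),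
          if_neg (fun h' => h1 (hK.1 h').1)]; ring
      · rw [if_neg h1, if_neg h2, if_neg (fun h' => h2 (hts'.1 h')),
          if_neg (fun h' => (hu.1 h').elim h1 h2), if_neg (fun h' => h1 (hK.1 h').1)]; ring
  · have e0 : tm G T = 0 := by unfold tm; rw [if_neg hcl]
    rw [e0]
    simp

end Pool.Agent.Q134.SV
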