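import Pool.Agent.Q134.SV.ChiC

/-!
The Euler characteristic of the right-angled Coxeter group of a sum of two flag complexes along a
full subcomplex.
-/

set_option autoImplicit false
set_option linter.unusedSectionVars false

open scoped Classical

namespace Pool.Agent.Q134.SV

open Pool.Agent.W907.SG Pool.Agent.Q134.SE

/-- `f` collapses the set `B` of vertices to one vertex `b`, and is injective otherwise; the flag
complex of `G₁` consists of the full subcomplex on the complement of `B` and of the cone with apex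
`b` over the full subcomplex on the complement of `A ∪ B` -/
structure IsCollapse {V V₁ : Type} (G : SimpleGraph V) (G₁ : SimpleGraph V₁) (f : V → V₁)
    (A B : Set V) : Prop where
  ne : B.Nonempty
  surj : Function.Surjective f
  inj : ∀ x y, f x = f y ↔ x = y ∨ (x ∈ B ∧ y ∈ B)
  adj : ∀ x y, x ∉ B → y ∉ B → (G₁.Adj (f x) (f y) ↔ G.Adj x y)
  adj' : ∀ x y, x ∈ B → y ∉ B → (G₁.Adj (f x) (f y) ↔ y ∉ A)

/-- The full subcomplex `E` on the complement of `A ∪ B` separates the flag complex of `G`, and `G₁`,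
`G₂` arise from the two sides by adding the cone over `E`. -/
structure IsSum {V V₁ V₂ : Type} (G : SimpleGraph V) (G₁ : SimpleGraph V₁) (G₂ : SimpleGraph V₂)
    (f₁ : V → V₁) (f₂ : V → V₂) (A B : Set V) : Prop where
  disj : ∀ x, x ∈ A → x ∉ B
  sep : ∀ x y, x ∈ A → y ∈ B → ¬ G.Adj x y
  left : IsCollapse G G₁ f₁ A B
  right : IsCollapse G G₂ f₂ B A

variable {V V₁ V₂ : Type} [Fintype V] [Fintype V₁] [Fintype V₂] {G : SimpleGraph V}
  {G₁ : SimpleGraph V₁} {G₂ : SimpleGraph V₂} {f : V → V₁} {f₁ : V → V₁} {f₂ : V → V₂} {A B : Set V}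

lemma IsCollapse.injOn (h : IsCollapse G G₁ f A B) {T : Finset V} (hT : ∀ x ∈ T, x ∉ B) :
    Set.InjOn f (T : Set V) := by
  intro x hx y _ he
  rcases (h.inj _ _).1 he with hc | ⟨hc, -⟩
  · exact hc
  · exact absurd hc (hT x hx)

lemma IsCollapse.notMem (h : IsCollapse G G₁ f A B) {T : Finset V} (hT : ∀ x ∈ T, x ∉ B) {y₀ : V}
    (hy : y₀ ∈ B) : f y₀ ∉ T.image f := by
  intro hm
  obtain ⟨x, hx, he⟩ := Finset.mem_image.1 hm
  rcases (h.inj _ _).1 he with hc | ⟨hc, -⟩
  · exact hT x hx (hc ▸ hy)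
  · exact hT x hx hc

lemma IsCollapse.sum_eq (h : IsCollapse G G₁ f A B) {y₀ : V} (hy : y₀ ∈ B) (F : Finset V₁ → ℚ) :
    ∑ T : Finset V₁, F T = ∑ T ∈ (Finset.univ.filter (fun x => x ∉ B)).powerset,
      (F (T.image f) + F (insert (f y₀) (T.image f))) := by
  have h1 : (Finset.univ : Finset (Finset V₁)) = (Finset.univ : Finset V₁).powerset := by
    ext; simp
  have h2 : (Finset.univ : Finset V₁) = insert (f y₀) (Finset.univ.erase (f y₀)) := by simp
  have hB : ∀ T : Finset V, T ⊆ Finset.univ.filter (fun x => x ∉ B) → ∀ x ∈ T, x ∉ B :=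
    fun T hT x hx => (Finset.mem_filter.1 (hT hx)).2
  rw [h1, h2, Finset.sum_powerset_insert (Finset.notMem_erase _ _), ← Finset.sum_add_distrib]
  symm
  refine Finset.sum_bij (fun T _ => T.image f) ?_ ?_ ?_ ?_
  · intro T hT
    rw [Finset.mem_powerset] at hT ⊢
    intro x hx
    rw [Finset.mem_erase]
    exact ⟨fun e => h.notMem (hB T hT) hy (e ▸ hx), Finset.mem_univ _⟩
  · intro T hT T' hT' he
    rw [Finset.mem_powerset] at hT hT'
    have hinj := h.injOn (T := T ∪ T') (fun x hx => by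
      rcases Finset.mem_union.1 hx with h' | h'
      · exact hB T hT x h'
      · exact hB T' hT' x h')
    ext x
    constructor
    · intro hx
      have : f x ∈ T'.image f := he ▸ Finset.mem_image_of_mem f hx
      obtain ⟨y, hy, hyx⟩ := Finset.mem_image.1 this
      have := hinj (by simp [hy]) (by simp [hx]) hyx
      exact this ▸ hy
    · intro hx
      have : f x ∈ T.image f := he ▸ Finset.mem_image_of_mem f hx
      obtain ⟨y, hy, hyx⟩ := Finset.mem_image.1 this
      have := hinj (by simp [hy]) (by simp [hx]) hyx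
      exact this ▸ hy
  · intro T₀ hT₀
    rw [Finset.mem_powerset] at hT₀
    refine ⟨Finset.univ.filter fun x => f x ∈ T₀, ?_, ?_⟩
    · rw [Finset.mem_powerset]
      intro x hx
      rw [Finset.mem_filter] at hx
      have hx2 := hT₀ hx.2
      rw [Finset.mem_erase] at hx2
      rw [Finset.mem_filter]
      exact ⟨Finset.mem_univ _, fun hxB => hx2.1 ((h.inj _ _).2 (Or.inr ⟨hxB, hy⟩))⟩
    · ext y
      rw [Finset.mem_image]
      constructor
      · rintro ⟨x, hx, rfl⟩
        exact (Finset.mem_filter.1 hx).2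
      · intro hy
        obtain ⟨x, rfl⟩ := h.surj y
        exact ⟨x, by simp [hy], rfl⟩
  · intro T _
    rfl

lemma IsCollapse.chiW_eq (h : IsCollapse G G₁ f A B) : chiW G₁ =
    ∑ T : Finset V, if ∀ x ∈ T, x ∉ B then
      (tm G T - 1 / 2 * if ∀ x ∈ T, x ∉ A then tm G T else 0) else 0 := by
  obtain ⟨y₀, hy⟩ := h.ne
  rw [Pool.Agent.Q134.SE.chiW_eq G₁, h.sum_eq hy, ← Finset.sum_filter]
  have hset : (Finset.univ.filter (fun x => x ∉ B)).powerset =
      Finset.univ.filter (fun T : Finset V => ∀ x ∈ T, x ∉ B) := by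
    ext T
    rw [Finset.mem_powerset, Finset.mem_filter]
    constructor
    · intro h'
      exact ⟨Finset.mem_univ _, fun x hx => (Finset.mem_filter.1 (h' hx)).2⟩
    · intro h' x hx
      exact Finset.mem_filter.2 ⟨Finset.mem_univ _, h'.2 x hx⟩
  rw [hset]
  refine Finset.sum_congr rfl fun T hT => ?_
  have hTB := (Finset.mem_filter.1 hT).2
  have e1 : tm G₁ (T.image f) = tm G T := by
    unfold tm
    rw [Finset.card_image_of_injOn (h.injOn hTB)]
    have : G₁.IsClique ((T.image f : Finset V₁) : Set V₁) ↔ G.IsClique (T : Set V) := by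
      rw [Finset.coe_image, SimpleGraph.isClique_iff, SimpleGraph.isClique_iff, Set.Pairwise,
        Set.Pairwise]
      constructor
      · intro h' x hx y hy hxy
        exact (h.adj x y (hTB x hx) (hTB y hy)).1 (h' ⟨x, hx, rfl⟩ ⟨y, hy, rfl⟩
          (fun e => hxy (h.injOn hTB hx hy e)))
      · rintro h' _ ⟨x, hx, rfl⟩ _ ⟨y, hy, rfl⟩ hxy
        exact (h.adj x y (hTB x hx) (hTB y hy)).2 (h' hx hy (fun e => hxy (by rw [e])))
    simp only [this]
  rw [tm_insert G₁ (h.notMem hTB hy), e1]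
  have e2 : (∀ a ∈ T.image f, G₁.Adj (f y₀) a) ↔ ∀ x ∈ T, x ∉ A := by
    constructor
    · intro h' x hx
      exact (h.adj' y₀ x hy (hTB x hx)).1 (h' _ (Finset.mem_image_of_mem f hx))
    · intro h' a ha
      obtain ⟨x, hx, rfl⟩ := Finset.mem_image.1 ha
      exact (h.adj' y₀ x hy (hTB x hx)).2 (h' x hx)
  by_cases hA : ∀ x ∈ T, x ∉ A
  · rw [if_pos (e2.2 hA), if_pos hA]; ring
  · rw [if_neg (fun h' => hA (e2.1 h')), if_neg hA]; ring

/-- **The Euler characteristic of a sum.** -/
theorem chiW_sum (h : IsSum G G₁ G₂ f₁ f₂ A B) : chiW G = chiW G₁ + chiW G₂ := by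
  rw [h.left.chiW_eq, h.right.chiW_eq, Pool.Agent.Q134.SE.chiW_eq G, ← Finset.sum_add_distrib]
  refine Finset.sum_congr rfl fun T _ => ?_
  by_cases h1 : ∀ x ∈ T, x ∉ B
  · by_cases h2 : ∀ x ∈ T, x ∉ A
    · rw [if_pos h1, if_pos h2, if_pos h2, if_pos h1]; ring
    · rw [if_pos h1, if_neg h2, if_neg h2]; ring
  · by_cases h2 : ∀ x ∈ T, x ∉ A
    · rw [if_neg h1, if_pos h2, if_neg h1]; ring
    · rw [if_neg h1, if_neg h2]
      push Not at h1 h2
      obtain ⟨y, hy, hyB⟩ := h1
      obtain ⟨x, hx, hxA⟩ := h2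
      unfold tm
      rw [if_neg]
      · ring
      · intro hcl
        have hne : x ≠ y := fun e => h.disj x hxA (e ▸ hyB)
        exact h.sep x y hxA hyB (hcl hx hy hne)

end Pool.Agent.Q134.SV
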