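import Mathlib

/-!
A homomorphism from the right-angled Coxeter group of the pentagon to `SO(2,1)(ℚ)` and the
orientation cocycle of the circle of the rays of the light cone.
-/

set_option autoImplicit false

open scoped Matrix

namespace Pool.Agent.Q134.SV

/-- the sign of a rational number -/
noncomputable def sg (x : ℚ) : ℝ := if 0 < x then 1 else if x < 0 then -1 else 0

lemma sg_of_pos {x : ℚ} (h : 0 < x) : sg x = 1 := if_pos h

lemma sg_of_neg {x : ℚ} (h : x < 0) : sg x = -1 := by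
  unfold sg
  rw [if_neg h.not_gt, if_pos h]

lemma sg_zero : sg 0 = 0 := by simp [sg]

lemma sg_neg (x : ℚ) : sg (-x) = - sg x := by
  rcases lt_trichotomy 0 x with h | h | h
  · rw [sg_of_pos h, sg_of_neg (by linarith)]
  · rw [← h, neg_zero, sg_zero, neg_zero]
  · rw [sg_of_neg h, sg_of_pos (by linarith)]; norm_num

lemma sg_mul (x y : ℚ) : sg (x * y) = sg x * sg y := by
  rcases lt_trichotomy 0 x with h | h | h
  · rcases lt_trichotomy 0 y with h' | h' | h'
    · rw [sg_of_pos h, sg_of_pos h', sg_of_pos (mul_pos h h')]; norm_num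
    · rw [← h', mul_zero, sg_zero, mul_zero]
    · rw [sg_of_pos h, sg_of_neg h', sg_of_neg (mul_neg_of_pos_of_neg h h')]; norm_num
  · rw [← h, zero_mul, sg_zero, zero_mul]
  · rcases lt_trichotomy 0 y with h' | h' | h'
    · rw [sg_of_neg h, sg_of_pos h', sg_of_neg (mul_neg_of_neg_of_pos h h')]; norm_num
    · rw [← h', mul_zero, sg_zero, mul_zero]
    · rw [sg_of_neg h, sg_of_neg h', sg_of_pos (mul_pos_of_neg_of_neg h h')]; norm_num

lemma abs_sg_le (x : ℚ) : |sg x| ≤ 1 := by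
  unfold sg
  split_ifs <;> simp

lemma sg_tri (a b : ℚ) : sg (a * (a + b) * b) = sg b - sg (a + b) + sg a := by
  rw [sg_mul, sg_mul]
  rcases lt_trichotomy 0 a with h | h | h
  · rcases lt_trichotomy 0 b with h' | h' | h'
    · rw [sg_of_pos h, sg_of_pos h', sg_of_pos (by linarith : 0 < a + b)]; norm_num
    · rw [← h', add_zero, sg_zero]; ring
    · rw [sg_of_pos h, sg_of_neg h']; ring
  · rw [← h, zero_add, sg_zero]; ring
  · rcases lt_trichotomy 0 b with h' | h' | h'
    · rw [sg_of_neg h, sg_of_pos h']; ring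
    · rw [← h', add_zero, sg_zero]; ring
    · rw [sg_of_neg h, sg_of_neg h', sg_of_neg (by linarith : a + b < 0)]; norm_num

/-- the determinant of three vectors -/
def dt (p q r : Fin 3 → ℚ) : ℚ :=
  p 0 * (q 1 * r 2 - q 2 * r 1) - p 1 * (q 0 * r 2 - q 2 * r 0) + p 2 * (q 0 * r 1 - q 1 * r 0)

lemma dt_self_left (p q : Fin 3 → ℚ) : dt p p q = 0 := by unfold dt; ring

lemma dt_self_right (p q : Fin 3 → ℚ) : dt p q q = 0 := by unfold dt; ring

lemma dt_mulVec (M : Matrix (Fin 3) (Fin 3) ℚ) (p q r : Fin 3 → ℚ) :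
    dt (M *ᵥ p) (M *ᵥ q) (M *ᵥ r) = M.det * dt p q r := by
  unfold dt
  rw [Matrix.det_fin_three]
  simp only [Matrix.mulVec, dotProduct, Fin.sum_univ_three]
  ring

/-- the positive light cone -/
def Cone (p : Fin 3 → ℚ) : Prop := p 1 ^ 2 = p 0 * p 2 ∧ 0 ≤ p 0 ∧ 0 ≤ p 2 ∧ p ≠ 0

lemma Cone.zero {p : Fin 3 → ℚ} (h : Cone p) (h0 : p 0 = 0) : p 1 = 0 ∧ 0 < p 2 := by
  obtain ⟨h1, h2, h3, h4⟩ := h
  rw [h0, zero_mul] at h1
  have h5 : p 1 = 0 := by simpa using h1
  refine ⟨h5, lt_of_le_of_ne h3 ?_⟩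
  intro h6
  apply h4
  funext i
  fin_cases i
  · exact h0
  · exact h5
  · exact h6.symm

lemma Cone.pos {p : Fin 3 → ℚ} (h : Cone p) (h0 : p 0 ≠ 0) :
    0 < p 0 ∧ ∃ x : ℚ, p 1 = p 0 * x ∧ p 2 = p 0 * x ^ 2 := by
  obtain ⟨h1, h2, h3, h4⟩ := h
  refine ⟨lt_of_le_of_ne h2 (Ne.symm h0), p 1 / p 0, by field_simp, ?_⟩
  rw [div_pow, h1]
  field_simp

/-- the comparison of two rays of the light cone -/
noncomputable def slp (p q : Fin 3 → ℚ) : ℝ :=
  if p 0 = 0 then (if q 0 = 0 then 0 else -1)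
  else (if q 0 = 0 then 1 else sg (p 0 * q 1 - p 1 * q 0))

lemma sg_dt {p q r : Fin 3 → ℚ} (hp : Cone p) (hq : Cone q) (hr : Cone r) :
    sg (dt p q r) = slp q r - slp p r + slp p q := by
  unfold slp
  by_cases hp0 : p 0 = 0
  · obtain ⟨hp1, hp2⟩ := hp.zero hp0
    by_cases hq0 : q 0 = 0
    · obtain ⟨hq1, hq2⟩ := hq.zero hq0
      have : dt p q r = 0 := by unfold dt; rw [hp0, hp1, hq0, hq1]; ring
      rw [this, sg_zero, if_pos hq0, if_pos hp0, if_pos hp0, if_pos hq0]
      ring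
    · obtain ⟨hq', y, hy1, hy2⟩ := hq.pos hq0
      by_cases hr0 : r 0 = 0
      · obtain ⟨hr1, hr2⟩ := hr.zero hr0
        have : dt p q r = 0 := by unfold dt; rw [hp0, hp1, hr0, hr1]; ring
        rw [this, sg_zero, if_neg hq0, if_pos hr0, if_pos hp0, if_pos hp0, if_pos hr0, if_neg hq0]
        ring
      · obtain ⟨hr', z, hz1, hz2⟩ := hr.pos hr0
        have : dt p q r = p 2 * (q 0 * r 1 - q 1 * r 0) := by unfold dt; rw [hp0, hp1]; ring
        rw [this, sg_mul, sg_of_pos hp2, if_neg hq0, if_neg hr0, if_pos hp0, if_pos hp0,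
          if_neg hr0, if_neg hq0]
        ring
  · obtain ⟨hp', x, hx1, hx2⟩ := hp.pos hp0
    by_cases hq0 : q 0 = 0
    · obtain ⟨hq1, hq2⟩ := hq.zero hq0
      by_cases hr0 : r 0 = 0
      · obtain ⟨hr1, hr2⟩ := hr.zero hr0
        have : dt p q r = 0 := by unfold dt; rw [hq0, hq1, hr0, hr1]; ring
        rw [this, sg_zero, if_pos hq0, if_pos hr0, if_neg hp0, if_pos hr0, if_neg hp0, if_pos hq0]
        ring
      · obtain ⟨hr', z, hz1, hz2⟩ := hr.pos hr0
        have : dt p q r = - (q 2 * (p 0 * r 1 - p 1 * r 0)) := by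
          unfold dt; rw [hq0, hq1]; ring
        rw [this, sg_neg, sg_mul, sg_of_pos hq2, if_pos hq0, if_neg hr0, if_neg hp0, if_neg hr0,
          if_neg hp0, if_pos hq0]
        ring
    · obtain ⟨hq', y, hy1, hy2⟩ := hq.pos hq0
      by_cases hr0 : r 0 = 0
      · obtain ⟨hr1, hr2⟩ := hr.zero hr0
        have : dt p q r = r 2 * (p 0 * q 1 - p 1 * q 0) := by
          unfold dt; rw [hr0, hr1]; ring
        rw [this, sg_mul, sg_of_pos hr2, if_neg hq0, if_pos hr0, if_neg hp0, if_pos hr0,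
          if_neg hp0, if_neg hq0]
        ring
      · obtain ⟨hr', z, hz1, hz2⟩ := hr.pos hr0
        rw [if_neg hq0, if_neg hr0, if_neg hp0, if_neg hr0, if_neg hp0, if_neg hq0]
        have e1 : dt p q r = (p 0 * q 0 * r 0) * ((y - x) * ((y - x) + (z - y)) * (z - y)) := by
          unfold dt; rw [hx1, hx2, hy1, hy2, hz1, hz2]; ring
        have e2 : q 0 * r 1 - q 1 * r 0 = (q 0 * r 0) * (z - y) := by rw [hy1, hz1]; ring
        have e3 : p 0 * r 1 - p 1 * r 0 = (p 0 * r 0) * ((y - x) + (z - y)) := by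
          rw [hx1, hz1]; ring
        have e4 : p 0 * q 1 - p 1 * q 0 = (p 0 * q 0) * (y - x) := by rw [hx1, hy1]; ring
        have f1 : ∀ k t : ℚ, 0 < k → sg (k * t) = sg t := fun k t hk => by
          rw [sg_mul, sg_of_pos hk, one_mul]
        rw [e1, e2, e3, e4, f1 _ _ (by positivity : 0 < p 0 * q 0 * r 0),
          f1 _ _ (by positivity : 0 < q 0 * r 0), f1 _ _ (by positivity : 0 < p 0 * r 0),
          f1 _ _ (by positivity : 0 < p 0 * q 0), sg_tri]

lemma sg_dt_cocycle {p q r t : Fin 3 → ℚ} (hp : Cone p) (hq : Cone q) (hr : Cone r)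
    (ht : Cone t) : sg (dt q r t) - sg (dt p r t) + sg (dt p q t) - sg (dt p q r) = 0 := by
  rw [sg_dt hq hr ht, sg_dt hp hr ht, sg_dt hp hq ht, sg_dt hp hq hr]
  ring

/-- the reflections in the sides of a right-angled pentagon -/
def rfn : Fin 5 → Matrix (Fin 3) (Fin 3) ℚ :=
  ![!![1, 0, 0; 0, -1, 0; 0, 0, 1],
    !![0, 0, 1; 0, 1, 0; 1, 0, 0],
    !![25/9, -40/9, 16/9; 20/9, -41/9, 20/9; 16/9, -40/9, 25/9],
    !![16/7, -72/7, 81/7; 4/7, -25/7, 36/7; 1/7, -8/7, 16/7],
    !![0, 0, 9; 0, 1, 0; 1/9, 0, 0]]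

lemma rfn_sq (i : Fin 5) : rfn i * rfn i = 1 := by
  fin_cases i <;> simp [rfn, Matrix.one_fin_three] <;> norm_num

lemma rfn_comm (i : Fin 5) : rfn i * rfn (i + 1) = rfn (i + 1) * rfn i := by
  fin_cases i <;> simp [rfn] <;> norm_num

lemma det_rfn (i : Fin 5) : (rfn i).det = -1 := by
  rw [Matrix.det_fin_three]
  fin_cases i <;> simp [rfn] <;> norm_num

lemma Cone.form {p : Fin 3 → ℚ} (h : Cone p) (a b : ℚ) :
    0 ≤ a ^ 2 * p 0 + 2 * a * b * p 1 + b ^ 2 * p 2 := by
  by_cases h0 : p 0 = 0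
  · obtain ⟨h1, h2⟩ := h.zero h0
    rw [h0, h1]
    have : 0 ≤ b ^ 2 * p 2 := by positivity
    linarith
  · obtain ⟨h1, x, hx1, hx2⟩ := h.pos h0
    rw [hx1, hx2]
    have : a ^ 2 * p 0 + 2 * a * b * (p 0 * x) + b ^ 2 * (p 0 * x ^ 2) = p 0 * (a + b * x) ^ 2 := by
      ring
    rw [this]
    positivity

lemma cone_rfn (i : Fin 5) {p : Fin 3 → ℚ} (h : Cone p) : Cone (rfn i *ᵥ p) := by
  have hne : rfn i *ᵥ p ≠ 0 := by
    intro h0
    apply h.2.2.2
    have : rfn i *ᵥ (rfn i *ᵥ p) = p := by rw [Matrix.mulVec_mulVec, rfn_sq, Matrix.one_mulVec]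
    rw [← this, h0, Matrix.mulVec_zero]
  have h1 := h.1
  have h2 := h.2.1
  have h3 := h.2.2.1
  refine ⟨?_, ?_, ?_, hne⟩
  · fin_cases i
    · simp [rfn, Matrix.mulVec, dotProduct, Fin.sum_univ_three]; linarith
    · simp [rfn, Matrix.mulVec, dotProduct, Fin.sum_univ_three]; linarith
    · simp [rfn, Matrix.mulVec, dotProduct, Fin.sum_univ_three]; linear_combination h1
    · simp [rfn, Matrix.mulVec, dotProduct, Fin.sum_univ_three]; linear_combination h1
    · simp [rfn, Matrix.mulVec, dotProduct, Fin.sum_univ_three]; linarith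
  · fin_cases i
    · simp [rfn, Matrix.mulVec, dotProduct, Fin.sum_univ_three]; linarith
    · simp [rfn, Matrix.mulVec, dotProduct, Fin.sum_univ_three]; linarith
    · have := h.form 5 (-4)
      simp [rfn, Matrix.mulVec, dotProduct, Fin.sum_univ_three]; linarith
    · have := h.form 4 (-9)
      simp [rfn, Matrix.mulVec, dotProduct, Fin.sum_univ_three]; linarith
    · simp [rfn, Matrix.mulVec, dotProduct, Fin.sum_univ_three]; linarith
  · fin_cases i
    · simp [rfn, Matrix.mulVec, dotProduct, Fin.sum_univ_three]; linarith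
    · simp [rfn, Matrix.mulVec, dotProduct, Fin.sum_univ_three]; linarith
    · have := h.form 4 (-5)
      simp [rfn, Matrix.mulVec, dotProduct, Fin.sum_univ_three]; linarith
    · have := h.form 1 (-4)
      simp [rfn, Matrix.mulVec, dotProduct, Fin.sum_univ_three]; linarith
    · simp [rfn, Matrix.mulVec, dotProduct, Fin.sum_univ_three]; linarith

/-- the base point -/
def xi : Fin 3 → ℚ := ![1, 0, 0]

lemma cone_xi : Cone xi := by
  refine ⟨by simp [xi], by simp [xi], by simp [xi], ?_⟩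
  intro h
  have := congrFun h 0
  simp [xi] at this

/-- the orientation cocycle on matrices -/
noncomputable def orc (A B C : Matrix (Fin 3) (Fin 3) ℚ) : ℝ := sg (dt (A *ᵥ xi) (B *ᵥ xi) (C *ᵥ xi))

lemma orc_self_left (A B : Matrix (Fin 3) (Fin 3) ℚ) : orc A A B = 0 := by
  unfold orc; rw [dt_self_left, sg_zero]

lemma orc_self_right (A B : Matrix (Fin 3) (Fin 3) ℚ) : orc A B B = 0 := by
  unfold orc; rw [dt_self_right, sg_zero]

lemma abs_orc_le (A B C : Matrix (Fin 3) (Fin 3) ℚ) : |orc A B C| ≤ 1 := abs_sg_le _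

lemma orc_rfn (i : Fin 5) (A B C : Matrix (Fin 3) (Fin 3) ℚ) :
    orc (rfn i * A) (rfn i * B) (rfn i * C) = - orc A B C := by
  unfold orc
  rw [← Matrix.mulVec_mulVec, ← Matrix.mulVec_mulVec, ← Matrix.mulVec_mulVec, dt_mulVec, det_rfn,
    neg_one_mul, sg_neg]

/-- the matrix of a vertex of the pentagon, or of a vertex which is not mapped to the pentagon -/
def rho : Option (Fin 5) → Matrix (Fin 3) (Fin 3) ℚ
  | none => 1
  | some i => rfn i

/-- the values of the cocycle on the edges of the pentagon -/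
noncomputable def dd (o o' : Option (Fin 5)) : ℝ := orc 1 (rho o) (rho o * rho o')

lemma dd_none_left (o : Option (Fin 5)) : dd none o = 0 := orc_self_left _ _

lemma dd_none_right (o : Option (Fin 5)) : dd o none = 0 := by
  unfold dd
  rw [show rho none = 1 from rfl, mul_one, orc_self_right]

lemma dd_values : dd (some 0) (some 1) = 0 ∧ dd (some 1) (some 0) = 0 ∧
    dd (some 1) (some 2) - dd (some 2) (some 1) = -2 ∧
    dd (some 2) (some 3) - dd (some 3) (some 2) = -2 ∧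
    dd (some 3) (some 4) - dd (some 4) (some 3) = 2 ∧
    dd (some 4) (some 0) = 0 ∧ dd (some 0) (some 4) = 0 := by
  have key : ∀ i j : Fin 5, dd (some i) (some j) =
      sg (dt xi (rfn i *ᵥ xi) ((rfn i * rfn j) *ᵥ xi)) := by
    intro i j
    unfold dd orc
    rw [Matrix.one_mulVec]
    rfl
  refine ⟨?_, ?_, ?_, ?_, ?_, ?_, ?_⟩
  · rw [key]
    simp [dt, xi, rfn, sg] <;> norm_num
  · rw [key]
    simp [dt, xi, rfn, sg] <;> norm_num
  · rw [key, key]
    simp [dt, xi, rfn, sg] <;> norm_num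
  · rw [key, key]
    simp [dt, xi, rfn, sg] <;> norm_num
  · rw [key, key]
    simp [dt, xi, rfn, sg] <;> norm_num
  · rw [key]
    simp [dt, xi, rfn, sg] <;> norm_num
  · rw [key]
    simp [dt, xi, rfn, sg] <;> norm_num

/-- the value on a cycle of the pentagon -/
lemma pent_sum (β : Fin 5 → Fin 5 → ℝ) (anti : ∀ i j, β i j = - β j i)
    (supp : ∀ i j, j ≠ i + 1 → i ≠ j + 1 → β i j = 0) (cyc : ∀ j, ∑ i, β i j = 0) :
    ∑ i, ∑ j, β i j * dd (some i) (some j) = -2 * β 0 1 := by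
  have h := fun i : Fin 5 => cyc i
  have z : ∀ i, β i i = 0 := fun i => by have := anti i i; linarith
  have a02 : β 0 2 = 0 := supp _ _ (by decide) (by decide)
  have a20 : β 2 0 = 0 := supp _ _ (by decide) (by decide)
  have a03 : β 0 3 = 0 := supp _ _ (by decide) (by decide)
  have a30 : β 3 0 = 0 := supp _ _ (by decide) (by decide)
  have a13 : β 1 3 = 0 := supp _ _ (by decide) (by decide)
  have a31 : β 3 1 = 0 := supp _ _ (by decide) (by decide)
  have a14 : β 1 4 = 0 := supp _ _ (by decide) (by decide)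
  have a41 : β 4 1 = 0 := supp _ _ (by decide) (by decide)
  have a24 : β 2 4 = 0 := supp _ _ (by decide) (by decide)
  have a42 : β 4 2 = 0 := supp _ _ (by decide) (by decide)
  have c0 := cyc 0
  have c1 := cyc 1
  have c2 := cyc 2
  have c3 := cyc 3
  have c4 := cyc 4
  simp only [Fin.sum_univ_five, z, a02, a20, a03, a30, a13, a31, a14, a41, a24, a42] at c0 c1 c2 c3 c4
  have b10 := anti 1 0
  have b21 := anti 2 1
  have b32 := anti 3 2
  have b43 := anti 4 3
  have b04 := anti 0 4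
  obtain ⟨d1, d2, d3, d4, d5, d6, d7⟩ := dd_values
  simp only [Fin.sum_univ_five, z, a02, a20, a03, a30, a13, a31, a14, a41, a24, a42, d1, d2, d6, d7,
    b10, b21, b32, b43]
  have e12 : β 1 2 = β 0 1 := by linarith
  have e23 : β 2 3 = β 0 1 := by linarith
  have e34 : β 3 4 = β 0 1 := by linarith
  rw [e12, e23, e34]
  linear_combination β 0 1 * (d3 + d4 + d5)

end Pool.Agent.Q134.SV
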