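import Pool.Agent.Q134.SV.Pairing
import Pool.Agent.Q134.SV.ChiS

/-!
The class of flag complexes which is closed under edge splittings and sums.
-/

set_option autoImplicit false

open scoped Classical

namespace Pool.Agent.Q134.SV

open Pool.Agent.W907.SG (W cox chiW)

/-- The flag complex of `G` is a connected orientable closed `(n-1)`-dimensional pseudo-manifold,
in the following sense: there is no simplex with `n + 1` vertices, there is a nonzero real
`(n-1)`-cycle, and every such cycle is nonzero on each simplex with `n` vertices. -/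
structure OPM (n : ℕ) {V : Type} [Fintype V] (G : SimpleGraph V) : Prop where
  dim : G.CliqueFree (n + 1)
  ex : ∃ a : (Fin n → V) → ℝ, IsCyc n G a ∧ a ≠ 0
  full : ∀ a : (Fin n → V) → ℝ, IsCyc n G a → a ≠ 0 →
    ∀ v : Fin n → V, (∀ i j, i ≠ j → G.Adj (v i) (v j)) → a v ≠ 0

/-- The flag complex of `G` is positive: every nonzero real `(n-1)`-cycle pairs nontrivially with a
bounded `n`-cocycle of `W G` with coefficients in the orientation character. -/
def Pos (n : ℕ) {V : Type} [Fintype V] (G : SimpleGraph V) : Prop :=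
  ∀ a : (Fin n → V) → ℝ, IsCyc n G a → a ≠ 0 → ∃ c, Good G n c ∧ pair (gen G) a c ≠ 0

/-- The class of flag complexes (pseudo-manifolds of dimension `n - 1`) generated by the empty complex
(`n = 0`), by those with vanishing Euler characteristic of `W G` and by the positive ones (e.g., by a
theorem of Mineyev, those without induced cycles of length four), under two operations: the inverse
of the contraction of an edge `s t` which is in no induced cycle of length four and whose link is in
the class, and the sum along a full subcomplex. -/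
inductive Cls : ℕ → ∀ (V : Type) [Fintype V], SimpleGraph V → Prop
  | flat {n : ℕ} {V : Type} [Fintype V] (G : SimpleGraph V) : OPM n G → chiW G = 0 → Cls n V G
  | pos {n : ℕ} {V : Type} [Fintype V] (G : SimpleGraph V) : OPM n G → Pos n G → Cls n V G
  | empty {V : Type} [Fintype V] (G : SimpleGraph V) : IsEmpty V → Cls 0 V G
  | split {n : ℕ} {V V₀ : Type} [Fintype V] [Fintype V₀] (G : SimpleGraph V)
      (G₀ : SimpleGraph V₀) (f : V → V₀) (s t : V)
      [Fintype ↥(G.neighborSet s ∩ G.neighborSet t)] :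
      OPM (n + 2) G → G.Adj s t → NoSquare G s t → IsContr G G₀ f s t → Cls (n + 2) V₀ G₀ →
      Cls n ↥(G.neighborSet s ∩ G.neighborSet t)
        (G.induce (G.neighborSet s ∩ G.neighborSet t)) → Cls (n + 2) V G
  | sum {n : ℕ} {V V₁ V₂ : Type} [Fintype V] [Fintype V₁] [Fintype V₂] (G : SimpleGraph V)
      (G₁ : SimpleGraph V₁) (G₂ : SimpleGraph V₂) (f₁ : V → V₁) (f₂ : V → V₂) (A B : Set V) :
      OPM (n + 1) G → IsSum G G₁ G₂ f₁ f₂ A B → Cls (n + 1) V₁ G₁ → Cls (n + 1) V₂ G₂ →
      Cls (n + 1) V G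

variable {V V₀ : Type} [Fintype V] [Fintype V₀] {G : SimpleGraph V} {G₀ : SimpleGraph V₀}

omit [Fintype V] in
lemma no_clique {m : ℕ} (h : G.CliqueFree m) (v : Fin m → V)
    (hv : ∀ i j, i ≠ j → G.Adj (v i) (v j)) : False := by
  have hinj : Function.Injective v := by
    intro i j hij
    by_contra hne
    exact (hv i j hne).ne hij
  refine h (Finset.univ.image v) ⟨?_, ?_⟩
  · rw [SimpleGraph.isClique_iff]
    intro x hx y hy hxy
    obtain ⟨i, -, rfl⟩ := Finset.mem_image.1 (Finset.mem_coe.1 hx)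
    obtain ⟨j, -, rfl⟩ := Finset.mem_image.1 (Finset.mem_coe.1 hy)
    exact hv i j (fun e => hxy (by rw [e]))
  · rw [Finset.card_image_of_injective _ hinj]
    simp

omit [Fintype V] in
lemma pa_cons {m : ℕ} {v : Fin m → V} (hv : ∀ i j, i ≠ j → G.Adj (v i) (v j)) {x : V}
    (hx : ∀ i, G.Adj x (v i)) : ∀ i j, i ≠ j →
      G.Adj ((Fin.cons x v : Fin (m + 1) → V) i) ((Fin.cons x v : Fin (m + 1) → V) j) := by
  intro i j
  refine Fin.cases ?_ (fun i => ?_) i
  · refine Fin.cases ?_ (fun j => ?_) j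
    · intro h; exact absurd rfl h
    · intro _; simpa using hx j
  · refine Fin.cases ?_ (fun j => ?_) j
    · intro _; simpa using (hx i).symm
    · intro h
      simpa using hv i j (fun e => h (by rw [e]))

lemma OPM.exists_clique {n : ℕ} (h : OPM n G) :
    ∃ v : Fin n → V, ∀ i j, i ≠ j → G.Adj (v i) (v j) := by
  obtain ⟨a, ha, hne⟩ := h.ex
  obtain ⟨v, hv⟩ := Function.ne_iff.1 hne
  exact ⟨v, ha.supp v hv⟩

/-- pull-back along a simplicial map of nonzero degree -/
theorem pos_of_push {n : ℕ} (f : V → V₀)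
    (hf : ∀ x y, G.Adj x y → f x = f y ∨ G₀.Adj (f x) (f y)) (h : Pos n G₀)
    {a : (Fin n → V) → ℝ} (ha : IsCyc n G a) (hne : push f a ≠ 0) :
    ∃ c, Good G n c ∧ pair (gen G) a c ≠ 0 := by
  obtain ⟨c, hc, hp⟩ := h (push f a) (ha.push f hf) hne
  let φ : W G →* W G₀ := lft G (fun x => gen G₀ (f x)) (fun x => gen_sq _ _)
    (fun x y hxy => by
      rcases hf x y hxy with h | h
      · rw [h]
      · exact gen_comm _ h)
  have hφ : ∀ x, φ (gen G x) = gen G₀ (f x) := fun x => lft_gen _ _ _ _ _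
  refine ⟨fun w => c (fun i => φ (w i)), ⟨?_, ?_, ?_, ?_⟩, ?_⟩
  · intro x w
    simp only [map_mul, hφ]
    exact hc.gen _ _
  · intro w
    exact hc.coc fun i => φ (w i)
  · obtain ⟨C, hC⟩ := hc.bdd
    exact ⟨C, fun w => hC _⟩
  · intro w i hi
    exact hc.nrm _ i (congrArg φ hi)
  · rw [pair_push] at hp
    convert hp using 1
    unfold pair
    refine Finset.sum_congr rfl fun v _ => ?_
    congr 1
    change c (fun i => φ (Fin.partialProd (gen G ∘ v) i)) = _
    congr 1
    funext i
    refine Fin.induction ?_ (fun j hj => ?_) i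
    · rw [Fin.partialProd_zero, Fin.partialProd_zero, map_one]
    · rw [Fin.partialProd_succ, Fin.partialProd_succ, map_mul, hj]
      congr 1

section split

variable {n : ℕ} {f : V → V₀} {s t : V} (hG : OPM (n + 2) G) (hst : G.Adj s t)

include hG hst in
/-- a tuple of vertices of the link of an edge cannot have `n + 1` entries -/
lemma link_free {x : V} {u : Fin n → V} (hx : G.Adj s x ∧ G.Adj t x)
    (hu : ∀ i, G.Adj s (u i) ∧ G.Adj t (u i)) (hxu : ∀ i, G.Adj x (u i))
    (huu : ∀ i j, i ≠ j → G.Adj (u i) (u j)) : False := by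
  refine no_clique hG.dim (Fin.cons s (Fin.cons t (Fin.cons x u))) ?_
  refine pa_cons (pa_cons (pa_cons huu hxu) ?_) ?_
  · intro i
    refine Fin.cases ?_ (fun i => ?_) i
    · exact hx.2
    · exact (hu i).2
  · intro i
    refine Fin.cases ?_ (fun i => Fin.cases ?_ (fun i => ?_) i) i
    · exact hst
    · exact hx.1
    · exact (hu i).1

omit [Fintype V₀] in
include hG hst in
/-- the contraction has nonzero degree -/
theorem push_contr (h : IsContr G G₀ f s t) {κ : Fin n → V}
    (hκ : ∀ i, G.Adj s (κ i) ∧ G.Adj t (κ i)) (hκκ : ∀ i j, i ≠ j → G.Adj (κ i) (κ j))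
    {a : (Fin (n + 2) → V) → ℝ} (ha : IsCyc (n + 2) G a) (hne : a ≠ 0) : push f a ≠ 0 := by
  have h1 : a (Fin.cons s (Fin.cons t κ)) ≠ 0 := by
    refine hG.full a ha hne _ (pa_cons (pa_cons hκκ fun i => (hκ i).2) ?_)
    intro i
    refine Fin.cases ?_ (fun i => ?_) i
    · exact hst
    · exact (hκ i).1
  have h2 : ∃ x, x ≠ s ∧ a (Fin.cons x (Fin.cons t κ)) ≠ 0 := by
    by_contra hc
    push Not at hc
    have h3 := sum_insertNth ha 0 (Fin.cons t κ)
    simp only [Fin.insertNth_zero'] at h3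
    rw [Finset.sum_eq_single s (fun x _ hx => hc x hx)
      (fun h' => absurd (Finset.mem_univ _) h')] at h3
    exact h1 h3
  obtain ⟨x, hxs, hx⟩ := h2
  have hadj := ha.supp _ hx
  have hxt : G.Adj x t := hadj 0 1 (by simp)
  have hxκ : ∀ i, G.Adj x (κ i) := fun i => hadj 0 i.succ.succ (Fin.succ_ne_zero _).symm
  have hxt' : x ≠ t := hxt.ne
  have hnsx : ¬ G.Adj s x := by
    intro hsx
    exact link_free hG hst ⟨hsx, hxt.symm⟩ hκ hxκ hκκ
  intro h0
  have h4 := congrFun h0 (f ∘ (Fin.cons x (Fin.cons t κ) : Fin (n + 2) → V))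
  simp only [push, Pi.zero_apply] at h4
  rw [Finset.sum_eq_single (Fin.cons x (Fin.cons t κ) : Fin (n + 2) → V)] at h4
  · rw [if_pos rfl] at h4
    exact hx h4
  · intro v _ hv
    by_cases he : f ∘ v = f ∘ (Fin.cons x (Fin.cons t κ) : Fin (n + 2) → V)
    · rw [if_pos he]
      by_contra hav
      apply hv
      have hva := ha.supp v hav
      have v0 : v 0 = x := by
        rcases h.inj _ _ (congrFun he 0) with h' | ⟨-, h' | h'⟩
        · exact h'
        · exact absurd h' hxs
        · exact absurd h' hxt'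
      have v2 : ∀ i : Fin n, v i.succ.succ = κ i := by
        intro i
        rcases h.inj _ _ (congrFun he i.succ.succ) with h' | ⟨-, h' | h'⟩
        · exact h'
        · exact absurd h'.symm (hκ i).1.ne
        · exact absurd h'.symm (hκ i).2.ne
      have v1 : v 1 = t := by
        rcases h.inj _ _ (congrFun he 1) with h' | ⟨h' | h', -⟩
        · exact h'
        · exfalso
          have := hva 1 0 (by simp)
          rw [h', v0] at this
          exact hnsx this
        · exact h'
      funext i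
      refine Fin.cases ?_ (fun i => Fin.cases ?_ (fun i => ?_) i) i
      · exact v0
      · exact v1
      · exact v2 i
    · rw [if_neg he]
  · intro h'
    exact absurd (Finset.mem_univ _) h'

omit [Fintype V₀] hG hst in
/-- the collapse of a side has nonzero degree -/
theorem push_collapse {V₁ : Type} [Fintype V₁] {G₁ : SimpleGraph V₁} {m : ℕ} {f : V → V₁}
    {A B : Set V} (hG : OPM (m + 1) G) (hG₁ : OPM (m + 1) G₁) (h : IsCollapse G G₁ f A B)
    {a : (Fin (m + 1) → V) → ℝ} (ha : IsCyc (m + 1) G a) (hne : a ≠ 0) : push f a ≠ 0 := by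
  obtain ⟨y₀, hy₀⟩ := h.ne
  obtain ⟨a₁, ha₁, hne₁⟩ := hG₁.ex
  obtain ⟨v₁, hv₁⟩ := Function.ne_iff.1 hne₁
  have h1 : ∃ v : Fin (m + 1) → V₁, a₁ v ≠ 0 ∧ ∀ i, v i ≠ f y₀ := by
    by_cases hb : ∀ i, v₁ i ≠ f y₀
    · exact ⟨v₁, hv₁, hb⟩
    · push Not at hb
      obtain ⟨i, hi⟩ := hb
      have h2 : ∃ x, x ≠ v₁ i ∧ a₁ (Function.update v₁ i x) ≠ 0 := by
        by_contra hc
        push Not at hc
        have h3 := ha₁.cyc v₁ i
        rw [Finset.sum_eq_single (v₁ i) (fun x _ hx => hc x hx)
          (fun h' => absurd (Finset.mem_univ _) h'), Function.update_eq_self] at h3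
        exact hv₁ h3
      obtain ⟨x, hx, hax⟩ := h2
      refine ⟨_, hax, fun j => ?_⟩
      rcases eq_or_ne j i with rfl | hj
      · rw [Function.update_self, ← hi]
        exact hx
      · rw [Function.update_of_ne hj, ← hi]
        exact (ha₁.supp v₁ hv₁ j i hj).ne
  obtain ⟨v, hv, hvb⟩ := h1
  choose u hu using fun i => h.surj (v i)
  have huB : ∀ i, u i ∉ B := by
    intro i hi
    apply hvb i
    rw [← hu i]
    exact (h.inj _ _).2 (Or.inr ⟨hi, hy₀⟩)
  have hadj : ∀ i j, i ≠ j → G.Adj (u i) (u j) := by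
    intro i j hij
    rw [← h.adj _ _ (huB i) (huB j), hu, hu]
    exact ha₁.supp v hv i j hij
  intro h0
  have h4 := congrFun h0 v
  simp only [push, Pi.zero_apply] at h4
  rw [Finset.sum_eq_single u] at h4
  · have hfu : f ∘ u = v := funext hu
    rw [if_pos hfu] at h4
    exact hG.full a ha hne u hadj h4
  · intro w _ hw
    rw [if_neg]
    intro he
    apply hw
    funext i
    have : f (w i) = f (u i) := by rw [hu, ← he]; rfl
    rcases (h.inj _ _).1 this with h' | ⟨-, h'⟩
    · exact h'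
    · exact absurd h' (huB i)
  · intro h'
    exact absurd (Finset.mem_univ _) h'

omit [Fintype V₀] [Fintype V] hG hst in
lemma IsCollapse.simplicial {V₁ : Type} {G₁ : SimpleGraph V₁} {f : V → V₁} {A B : Set V}
    (h : IsCollapse G G₁ f A B) (hsep : ∀ x y, x ∈ A → y ∈ B → ¬ G.Adj x y) (x y : V)
    (hxy : G.Adj x y) : f x = f y ∨ G₁.Adj (f x) (f y) := by
  by_cases hx : x ∈ B
  · by_cases hy : y ∈ B
    · exact Or.inl ((h.inj _ _).2 (Or.inr ⟨hx, hy⟩))
    · exact Or.inr ((h.adj' x y hx hy).2 fun hA => hsep y x hA hx hxy.symm)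
  · by_cases hy : y ∈ B
    · exact Or.inr ((h.adj' y x hy hx).2 fun hA => hsep x y hA hy hxy).symm
    · exact Or.inr ((h.adj x y hx hy).2 hxy)

/-- the map to the pentagon -/
noncomputable def pmap (G : SimpleGraph V) (s t : V) (x : V) : Option (Fin 5) :=
  if x ∈ G.neighborSet s ∩ G.neighborSet t then none
  else if x = s then some 0 else if x = t then some 1
  else if G.Adj t x then some 2 else if G.Adj s x then some 4 else some 3

omit [Fintype V] in
lemma pmap_none (x : V) : pmap G s t x = none ↔ x ∈ G.neighborSet s ∩ G.neighborSet t := by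
  unfold pmap
  split_ifs <;> simp_all

include hst in
omit [Fintype V] in
lemma pmap_s (x : V) : pmap G s t x = some 0 ↔ x = s := by
  have h1 : s ∉ G.neighborSet s ∩ G.neighborSet t := fun h => G.loopless.irrefl s h.1
  unfold pmap
  constructor
  · intro h
    split_ifs at h <;> simp_all
  · rintro rfl
    rw [if_neg h1, if_pos rfl]

include hst in
omit [Fintype V] in
lemma pmap_t (x : V) : pmap G s t x = some 1 ↔ x = t := by
  have h1 : t ∉ G.neighborSet s ∩ G.neighborSet t := fun h => G.loopless.irrefl t h.2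
  unfold pmap
  constructor
  · intro h
    split_ifs at h <;> simp_all
  · rintro rfl
    rw [if_neg h1, if_neg hst.ne', if_pos rfl]

include hst in
omit [Fintype V] in
theorem pentMap (hsq : NoSquare G s t) :
    PentMap G (G.neighborSet s ∩ G.neighborSet t) (pmap G s t) := by
  refine ⟨pmap_none, ?_⟩
  have key : ∀ x i, pmap G s t x = some i →
      (i = 0 ∧ x = s) ∨ (i = 1 ∧ x = t) ∨ (i = 2 ∧ x ≠ s ∧ x ≠ t ∧ G.Adj t x ∧ ¬ G.Adj s x) ∨
        (i = 4 ∧ x ≠ s ∧ x ≠ t ∧ G.Adj s x ∧ ¬ G.Adj t x) ∨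
        (i = 3 ∧ x ≠ s ∧ x ≠ t ∧ ¬ G.Adj s x ∧ ¬ G.Adj t x) := by
    intro x i h
    unfold pmap at h
    split_ifs at h with h1 h2 h3 h4 h5
    · exact Or.inl ⟨(Option.some_injective _ h).symm, h2⟩
    · exact Or.inr (Or.inl ⟨(Option.some_injective _ h).symm, h3⟩)
    · refine Or.inr (Or.inr (Or.inl ⟨(Option.some_injective _ h).symm, h2, h3, h4, fun h' => ?_⟩))
      exact h1 ⟨h', h4⟩
    · exact Or.inr (Or.inr (Or.inr (Or.inl ⟨(Option.some_injective _ h).symm, h2, h3, h5, h4⟩)))
    · exact Or.inr (Or.inr (Or.inr (Or.inr ⟨(Option.some_injective _ h).symm, h2, h3, h5, h4⟩)))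
  intro x y hxy i j hx hy
  rcases key x i hx with ⟨rfl, rfl⟩ | ⟨rfl, rfl⟩ | ⟨rfl, x1, x2, x3, x4⟩ | ⟨rfl, x1, x2, x3, x4⟩ |
    ⟨rfl, x1, x2, x3, x4⟩ <;>
  rcases key y j hy with ⟨rfl, rfl⟩ | ⟨rfl, rfl⟩ | ⟨rfl, y1, y2, y3, y4⟩ | ⟨rfl, y1, y2, y3, y4⟩ |
    ⟨rfl, y1, y2, y3, y4⟩
  all_goals first
    | exact Or.inl (by decide)
    | exact Or.inr (Or.inl (by decide))
    | exact Or.inr (Or.inr (by decide))
    | (exfalso; exact y4 hxy)
    | (exfalso; exact x4 hxy.symm)
    | (exfalso; exact y3 hxy)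
    | (exfalso; exact x3 hxy.symm)
    | (exfalso
       rcases hsq x y x1 y2 x3 hxy y3.symm with h | h
       · exact x4 h
       · exact y4 h)
    | (exfalso
       rcases hsq y x y1 x2 y3 hxy.symm x3.symm with h | h
       · exact y4 h
       · exact x4 h)

include hG hst in
/-- the case of a link with positive simplicial volume -/
theorem pos_of_link (hsq : NoSquare G s t) [Fintype ↥(G.neighborSet s ∩ G.neighborSet t)]
    (hK : OPM n (G.induce (G.neighborSet s ∩ G.neighborSet t)))
    (hP : Pos n (G.induce (G.neighborSet s ∩ G.neighborSet t))) : Pos (n + 2) G := by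
  intro a ha hne
  obtain ⟨κ, hκ⟩ := hK.exists_clique
  have h1 : lnk a s t (G.neighborSet s ∩ G.neighborSet t) ≠ 0 := by
    intro h0
    have h2 := congrFun h0 κ
    refine hG.full a ha hne _ (pa_cons (pa_cons ?_ ?_) ?_) h2
    · intro i j hij
      simpa using hκ i j hij
    · intro i
      exact (κ i).2.2
    · intro i
      refine Fin.cases ?_ (fun i => ?_) i
      · exact hst
      · exact (κ i).2.1
  obtain ⟨c, hc, hp⟩ := hP _ (isCyc_lnk ha s t _ fun x h h' => ⟨h, h'⟩) h1
  have hg := pentMap hst hsq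
  refine ⟨cup hg c, good_cup hg hc, ?_⟩
  rw [pair_cup hg ha (pmap_s hst) (pmap_t hst) ?_ hc]
  · exact mul_ne_zero (by norm_num) hp
  · intro u x hx y
    by_contra h0
    have hadj := ha.supp _ h0
    refine link_free hG hst ⟨hx.1, hx.2⟩ (fun i => ⟨(u i).2.1, (u i).2.2⟩) (fun i => ?_)
      (fun i j hij => ?_)
    · exact hadj 0 i.succ.succ (Fin.succ_ne_zero _).symm
    · have := hadj i.succ.succ j.succ.succ (by
        intro h
        exact hij (Fin.succ_injective _ (Fin.succ_injective _ h)))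
      simpa using this

end split

/-- **Main theorem**: in the class, nonzero Euler characteristic implies positive simplicial
volume. -/
theorem cls_main {n : ℕ} {V : Type} [Fintype V] {G : SimpleGraph V} (h : Cls n V G) :
    OPM n G ∧ (chiW G ≠ 0 → Pos n G) := by
  induction h with
  | flat G hG hχ => exact ⟨hG, fun h => absurd hχ h⟩
  | pos G hG hP => exact ⟨hG, fun _ => hP⟩
  | @empty V _ G hV =>
    refine ⟨⟨?_, ⟨fun _ => 1, ⟨?_, ?_, ?_⟩, ?_⟩, ?_⟩, ?_⟩
    · intro T hT
      have := hT.card_eq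
      have h0 : T = ∅ := Finset.eq_empty_of_isEmpty T
      rw [h0] at this
      simp at this
    · intro v i; exact i.elim0
    · intro v _ i; exact i.elim0
    · intro v i; exact i.elim0
    · intro h0
      have := congrFun h0 Fin.elim0
      simp at this
    · intro a _ hne v _ h0
      apply hne
      funext u
      rw [Subsingleton.elim u v, h0]
      rfl
    · intro _ a _ hne
      refine ⟨fun _ => 1, ⟨fun x => hV.elim x, ?_, ⟨1, fun _ => by simp⟩, fun _ i => i.elim0⟩, ?_⟩
      · intro g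
        unfold cobd
        simp [Fin.sum_univ_two]
      · unfold pair
        intro h0
        apply hne
        funext u
        have : (Finset.univ : Finset (Fin 0 → V)) = {u} := by
          ext v
          rw [Finset.mem_singleton]
          exact ⟨fun _ => Subsingleton.elim v u, fun _ => Finset.mem_univ _⟩
        rw [this, Finset.sum_singleton, mul_one] at h0
        exact h0
  | @split n V V₀ _ _ G G₀ f s t _ hG hst hsq hf _ _ ih₀ ihK =>
    refine ⟨hG, fun hχ => ?_⟩
    obtain ⟨hG₀, hP₀⟩ := ih₀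
    obtain ⟨hK, hPK⟩ := ihK
    rw [chiW_contr hf hst hsq] at hχ
    by_cases h0 : chiW (G.induce (G.neighborSet s ∩ G.neighborSet t)) = 0
    · rw [h0, mul_zero, sub_zero] at hχ
      intro a ha hne
      obtain ⟨κ, hκ⟩ := hK.exists_clique
      refine pos_of_push f ?_ (hP₀ hχ) ha (push_contr hG hst hf
        (κ := fun i => (κ i : V)) (fun i => ⟨(κ i).2.1, (κ i).2.2⟩) ?_ ha hne)
      · intro x y hxy
        by_cases he : f x = f y
        · exact Or.inl he
        · exact Or.inr ((hf.adj _ _).2 ⟨he, x, y, rfl, rfl, hxy⟩)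
      · intro i j hij
        simpa using hκ i j hij
    · exact pos_of_link hG hst hsq hK (hPK h0)
  | sum G G₁ G₂ f₁ f₂ A B hG hS _ _ ih₁ ih₂ =>
    refine ⟨hG, fun hχ a ha hne => ?_⟩
    obtain ⟨hG₁, hP₁⟩ := ih₁
    obtain ⟨hG₂, hP₂⟩ := ih₂
    rw [chiW_sum hS] at hχ
    by_cases h0 : chiW G₁ = 0
    · rw [h0, zero_add] at hχ
      exact pos_of_push f₂ (hS.right.simplicial fun x y hx hy h => hS.sep y x hy hx h.symm)
        (hP₂ hχ) ha (push_collapse hG hG₂ hS.right ha hne)
    · exact pos_of_push f₁ (hS.left.simplicial hS.sep) (hP₁ h0) ha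
        (push_collapse hG hG₁ hS.left ha hne)

end Pool.Agent.Q134.SV
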