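import Mathlib

/-!
Homogeneous cochains of groups: coboundary, homotopy, transfer.
-/

set_option autoImplicit false

namespace Pool.Agent.Q134.SV

/-- The coboundary `(δ b)(g_0, …, g_n) = ∑_i (-1)^i b(g_0, …, g_i omitted, …, g_n)`. -/
def cobd {X : Type} {n : ℕ} (b : (Fin n → X) → ℝ) : (Fin (n + 1) → X) → ℝ :=
  fun g => ∑ i : Fin (n + 1), (-1 : ℝ) ^ (i : ℕ) * b (g ∘ i.succAbove)

variable {X : Type}

lemma cons_comp_zero {n : ℕ} (x : X) (g : Fin n → X) :
    (Fin.cons x g : Fin (n + 1) → X) ∘ (0 : Fin (n + 1)).succAbove = g := by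
  funext j
  simp

lemma cons_comp_succ {n : ℕ} (x : X) (g : Fin (n + 1) → X) (i : Fin (n + 1)) :
    (Fin.cons x g : Fin (n + 2) → X) ∘ (i.succ).succAbove = Fin.cons x (g ∘ i.succAbove) := by
  funext j
  refine Fin.cases ?_ (fun k => ?_) j
  · simp
  · simp [Fin.succ_succAbove_succ]

lemma cobd_cons {n : ℕ} (b : (Fin (n + 1) → X) → ℝ) (x : X) (g : Fin (n + 1) → X) :
    cobd b (Fin.cons x g) = b g - cobd (fun g' => b (Fin.cons x g')) g := by
  unfold cobd
  rw [Fin.sum_univ_succ, cons_comp_zero]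
  have h : ∀ i : Fin (n + 1), (-1 : ℝ) ^ ((i.succ : Fin (n + 2)) : ℕ) *
      b ((Fin.cons x g : Fin (n + 2) → X) ∘ (i.succ).succAbove) =
      - ((-1 : ℝ) ^ (i : ℕ) * b (Fin.cons x (g ∘ i.succAbove))) := by
    intro i
    rw [cons_comp_succ, Fin.val_succ, pow_succ]
    ring
  rw [Finset.sum_congr rfl fun i _ => h i, Finset.sum_neg_distrib]
  simp
  ring

lemma cobd_sub {n : ℕ} (b b' : (Fin n → X) → ℝ) (g : Fin (n + 1) → X) :
    cobd (fun g' => b g' - b' g') g = cobd b g - cobd b' g := by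
  unfold cobd
  rw [← Finset.sum_sub_distrib]
  exact Finset.sum_congr rfl fun i _ => by ring

lemma cobd_comp {Y : Type} {n : ℕ} (b : (Fin n → Y) → ℝ) (r : X → Y) (g : Fin (n + 1) → X) :
    cobd (fun g' => b (r ∘ g')) g = cobd b (r ∘ g) := rfl

/-- The homotopy between `c` and `c ∘ r`. -/
def pri (r : X → X) : ∀ n : ℕ, ((Fin (n + 1) → X) → ℝ) → (Fin n → X) → ℝ
  | 0, _ => fun _ => 0
  | n + 1, c => fun g =>
      c (Fin.cons (g 0) (r ∘ g)) - pri r n (fun g' => c (Fin.cons (g 0) g')) (Fin.tail g)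

lemma pri_cons (r : X → X) (n : ℕ) (c : (Fin (n + 2) → X) → ℝ) (x : X) (g : Fin n → X) :
    pri r (n + 1) c (Fin.cons x g) = c (Fin.cons x (Fin.cons (r x) (r ∘ g))) -
      pri r n (fun g' => c (Fin.cons x g')) g := by
  change c (Fin.cons ((Fin.cons x g : Fin (n + 1) → X) 0) (r ∘ (Fin.cons x g : Fin (n + 1) → X))) -
    pri r n (fun g' => c (Fin.cons ((Fin.cons x g : Fin (n + 1) → X) 0) g'))
      (Fin.tail (Fin.cons x g : Fin (n + 1) → X)) = _
  rw [Fin.cons_zero, Fin.tail_cons]
  congr 3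
  funext j
  refine Fin.cases ?_ (fun k => ?_) j
  · simp
  · simp

lemma pri_sub (r : X → X) : ∀ (n : ℕ) (c c' : (Fin (n + 1) → X) → ℝ) (g : Fin n → X),
    pri r n (fun g' => c g' - c' g') g = pri r n c g - pri r n c' g
  | 0, _, _, _ => by simp [pri]
  | n + 1, c, c', g => by
      simp only [pri]
      rw [pri_sub r n]
      ring

theorem prism (r : X → X) : ∀ (n : ℕ) (c : (Fin (n + 1) → X) → ℝ) (g : Fin (n + 1) → X),
    cobd (pri r n c) g + pri r (n + 1) (cobd c) g = c (r ∘ g) - c g
  | 0, c, g => by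
      have e0 : cobd (pri r 0 c) g = 0 := by
        unfold cobd
        simp [pri]
      have e1 : pri r 1 (cobd c) g = cobd c (Fin.cons (g 0) (r ∘ g)) := by
        simp [pri]
      rw [e0, e1, cobd_cons, zero_add]
      congr 1
      unfold cobd
      rw [Fin.sum_univ_one]
      simp only [Fin.val_zero, pow_zero, one_mul]
      congr 1
      funext j
      obtain rfl : j = 0 := Subsingleton.elim (α := Fin 1) j 0
      simp
  | n + 1, c, g => by
      obtain ⟨x, g', rfl⟩ : ∃ x g', g = (Fin.cons x g' : Fin (n + 2) → X) :=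
        ⟨g 0, Fin.tail g, (Fin.cons_self_tail g).symm⟩
      have hr : r ∘ (Fin.cons x g' : Fin (n + 2) → X) = Fin.cons (r x) (r ∘ g') := by
        funext j
        refine Fin.cases ?_ (fun k => ?_) j
        · simp
        · simp
      have e1 : cobd (pri r (n + 1) c) (Fin.cons x g') =
          pri r (n + 1) c g' - cobd (fun m => c (Fin.cons x (Fin.cons (r x) (r ∘ m)))) g' +
            cobd (pri r n (fun m => c (Fin.cons x m))) g' := by
        rw [cobd_cons]
        have : (fun m : Fin n → X => pri r (n + 1) c (Fin.cons x m)) = fun m =>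
            c (Fin.cons x (Fin.cons (r x) (r ∘ m))) - pri r n (fun m' => c (Fin.cons x m')) m := by
          funext m
          exact pri_cons r n c x m
        rw [this, cobd_sub]
        change _ - (_ - cobd (pri r n fun m' => c (Fin.cons x m')) g') = _
        ring
      have e2 : pri r (n + 2) (cobd c) (Fin.cons x g') =
          cobd c (Fin.cons x (Fin.cons (r x) (r ∘ g'))) -
            (pri r (n + 1) c g' - pri r (n + 1) (cobd (fun m => c (Fin.cons x m))) g') := by
        rw [pri_cons]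
        congr 1
        have : (fun m : Fin (n + 2) → X => cobd c (Fin.cons x m)) = fun m =>
            c m - cobd (fun m' => c (Fin.cons x m')) m := by
          funext m
          exact cobd_cons c x m
        rw [this]
        exact pri_sub r (n + 1) _ _ _
      have ih := prism r n (fun m => c (Fin.cons x m)) g'
      have e3 : cobd c (Fin.cons x (Fin.cons (r x) (r ∘ g'))) =
          c (Fin.cons (r x) (r ∘ g')) - (c (Fin.cons x (r ∘ g')) -
            cobd (fun m => c (Fin.cons x (Fin.cons (r x) m))) (r ∘ g')) := by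
        rw [cobd_cons, cobd_cons]
      have e4 : cobd (fun m => c (Fin.cons x (Fin.cons (r x) (r ∘ m)))) g' =
          cobd (fun m => c (Fin.cons x (Fin.cons (r x) m))) (r ∘ g') := rfl
      rw [e1, e2, e3, e4, hr]
      linarith

lemma pri_equiv (r : X → X) (φ : X → X) (hr : ∀ x, r (φ x) = φ (r x)) :
    ∀ (n : ℕ) (c c' : (Fin (n + 1) → X) → ℝ), (∀ g, c' (φ ∘ g) = c g) →
      ∀ g : Fin n → X, pri r n c' (φ ∘ g) = pri r n c g
  | 0, _, _, _, _ => by simp [pri]
  | n + 1, c, c', h, g => by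
      simp only [pri, Function.comp_apply]
      have e1 : (Fin.cons (φ (g 0)) (r ∘ φ ∘ g) : Fin (n + 2) → X) =
          φ ∘ (Fin.cons (g 0) (r ∘ g) : Fin (n + 2) → X) := by
        funext j
        refine Fin.cases ?_ (fun k => ?_) j
        · simp
        · simp [hr]
      rw [e1, h]
      congr 1
      have e2 : Fin.tail (φ ∘ g) = φ ∘ Fin.tail g := rfl
      rw [e2]
      refine pri_equiv r φ hr n (fun g' => c (Fin.cons (g 0) g')) _ ?_ _
      intro g'
      have e3 : (Fin.cons (φ (g 0)) (φ ∘ g') : Fin (n + 2) → X) =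
          φ ∘ (Fin.cons (g 0) g' : Fin (n + 2) → X) := by
        funext j
        refine Fin.cases ?_ (fun k => ?_) j
        · simp
        · simp
      rw [e3, h]

lemma pri_zero (r : X → X) : ∀ (n : ℕ) (g : Fin n → X), pri r n (fun _ => 0) g = 0
  | 0, _ => by simp [pri]
  | n + 1, g => by
      simp only [pri]
      rw [pri_zero r n]
      simp

/-! ### Subgroups of finite index -/

variable {Γ : Type} [Group Γ]

open Classical in
/-- A map from `Γ` to the subgroup `H` which is equivariant for left translations by `H`. -/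
noncomputable def toSub (H : Subgroup Γ) (x : Γ) : H :=
  ⟨x * (Quotient.out (Quotient.mk (QuotientGroup.rightRel H) x))⁻¹, by
    have h : (QuotientGroup.rightRel H) (Quotient.out (Quotient.mk (QuotientGroup.rightRel H) x)) x :=
      Quotient.mk_out x
    rw [QuotientGroup.rightRel_apply] at h
    exact h⟩

theorem toSub_mul (H : Subgroup Γ) (a : H) (x : Γ) : toSub H (a * x) = a * toSub H x := by
  apply Subtype.ext
  have h : Quotient.mk (QuotientGroup.rightRel H) ((a : Γ) * x) =
      Quotient.mk (QuotientGroup.rightRel H) x := by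
    apply Quotient.sound
    change (QuotientGroup.rightRel H) _ _
    rw [QuotientGroup.rightRel_apply]
    have : x * ((a : Γ) * x)⁻¹ = (a : Γ)⁻¹ := by group
    rw [this]
    exact H.inv_mem a.2
  change (a : Γ) * x * (Quotient.out (Quotient.mk (QuotientGroup.rightRel H) ((a : Γ) * x)))⁻¹ =
    (a : Γ) * (x * (Quotient.out (Quotient.mk (QuotientGroup.rightRel H) x))⁻¹)
  rw [h, mul_assoc]

/-- Every bounded real `n`-cocycle of the group `H` is a coboundary (homogeneous cochains), i.e. the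
comparison map from the bounded cohomology `H_b^n(H; ℝ)` to `H^n(H; ℝ)` is zero. If `H` is the
fundamental group of a closed oriented aspherical `n`-manifold `M`, then this means that the
simplicial volume of `M` is zero (Gromov 1982: duality principle and mapping theorem). -/
def ZeroSV (n : ℕ) (H : Type) [Group H] : Prop :=
  ∀ c : (Fin (n + 1) → H) → ℝ, (∀ (h : H) (g : Fin (n + 1) → H), c (fun i => h * g i) = c g) →
    (∀ g : Fin (n + 2) → H, cobd c g = 0) → (∃ C : ℝ, ∀ g, |c g| ≤ C) →
    ∃ b : (Fin n → H) → ℝ, (∀ (h : H) (g : Fin n → H), b (fun i => h * g i) = b g) ∧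
      ∀ g : Fin (n + 1) → H, cobd b g = c g

/-- the class of an `ε`-equivariant cocycle whose restriction to a subgroup of finite index is zero
is zero -/
theorem transfer {n : ℕ} (ε : Γ →* ℤˣ) (H : Subgroup Γ) (hH : H.index ≠ 0) (hε : H ≤ ε.ker)
    (c : (Fin (n + 1) → Γ) → ℝ) (hc : ∀ (w : Γ) g, c (fun i => w * g i) = ((ε w : ℤ) : ℝ) * c g)
    (hd : ∀ g : Fin (n + 2) → Γ, cobd c g = 0)
    (b : (Fin n → H) → ℝ) (hb : ∀ (h : H) g, b (fun i => h * g i) = b g)
    (hbc : ∀ g : Fin (n + 1) → H, cobd b g = c (fun i => (g i : Γ))) :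
    ∃ b' : (Fin n → Γ) → ℝ, (∀ (w : Γ) g, b' (fun i => w * g i) = ((ε w : ℤ) : ℝ) * b' g) ∧
      ∀ g : Fin (n + 1) → Γ, cobd b' g = c g := by
  classical
  let r : Γ → Γ := fun x => (toSub H x : Γ)
  let b1 : (Fin n → Γ) → ℝ := fun g => b (fun i => toSub H (g i)) - pri r n c g
  have hεH : ∀ h : H, ε h = 1 := fun h => MonoidHom.mem_ker.1 (hε h.2)
  have hcH : ∀ (h : H) (g : Fin (n + 1) → Γ), c (fun i => (h : Γ) * g i) = c g := by
    intro h g
    rw [hc, hεH]
    simp
  have hb1 : ∀ (h : H) (g : Fin n → Γ), b1 (fun i => (h : Γ) * g i) = b1 g := by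
    intro h g
    have e1 : b (fun i => toSub H ((h : Γ) * g i)) = b (fun i => toSub H (g i)) := by
      simp only [toSub_mul]
      exact hb h _
    have e2 : pri r n c ((fun x => (h : Γ) * x) ∘ g) = pri r n c g := by
      refine pri_equiv r _ ?_ n c c ?_ g
      · intro x
        simp only [r, toSub_mul, Subgroup.coe_mul]
      · intro g'
        exact hcH h g'
    change b (fun i => toSub H ((h : Γ) * g i)) - pri r n c ((fun x => (h : Γ) * x) ∘ g) = _
    rw [e1, e2]
  have hd1 : ∀ g : Fin (n + 1) → Γ, cobd b1 g = c g := by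
    intro g
    have e1 : cobd b1 g = cobd (fun g' : Fin n → Γ => b (toSub H ∘ g')) g - cobd (pri r n c) g := by
      exact cobd_sub _ _ _
    rw [e1, cobd_comp b (toSub H) g, hbc]
    have e2 := prism r n c g
    have e3 : pri r (n + 1) (cobd c) g = 0 := by
      have : cobd c = fun _ => 0 := funext hd
      rw [this]
      exact pri_zero r (n + 1) g
    rw [e3, add_zero] at e2
    rw [e2]
    have e4 : c (fun i => ((toSub H ∘ g) i : Γ)) = c (r ∘ g) := rfl
    rw [e4]
    ring
  have hfi : H.FiniteIndex := ⟨hH⟩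
  have hfin : Finite (Γ ⧸ H) := Subgroup.finite_quotient_of_finiteIndex
  have : Fintype (Γ ⧸ H) := Fintype.ofFinite _
  let F : (Fin n → Γ) → Γ → ℝ := fun g w => ((ε w : ℤ) : ℝ) * b1 (fun i => w⁻¹ * g i)
  have hF : ∀ g w (h : H), F g (w * h) = F g w := by
    intro g w h
    simp only [F]
    rw [map_mul, hεH, mul_one]
    congr 1
    have : (fun i => (w * (h : Γ))⁻¹ * g i) = fun i => ((h⁻¹ : H) : Γ) * (w⁻¹ * g i) := by
      funext i
      rw [mul_inv_rev, Subgroup.coe_inv, mul_assoc]
    rw [this, hb1]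
  have hF' : ∀ g (w w' : Γ), (QuotientGroup.mk w : Γ ⧸ H) = QuotientGroup.mk w' → F g w = F g w' := by
    intro g w w' h
    rw [QuotientGroup.eq] at h
    have := hF g w ⟨_, h⟩
    rw [← this]
    simp
  let b2 : (Fin n → Γ) → ℝ := fun g => ∑ q : Γ ⧸ H, F g q.out
  have hεε : ∀ w : Γ, ((ε w : ℤ) : ℝ) * ((ε w : ℤ) : ℝ) = 1 := by
    intro w
    rcases Int.units_eq_one_or (ε w) with h | h <;> rw [h] <;> simp
  have hN : ((Fintype.card (Γ ⧸ H) : ℕ) : ℝ) ≠ 0 := by
    rw [Nat.cast_ne_zero]
    exact Fintype.card_ne_zero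
  refine ⟨fun g => ((Fintype.card (Γ ⧸ H) : ℕ) : ℝ)⁻¹ * b2 g, ?_, ?_⟩
  · intro w g
    have : b2 (fun i => w * g i) = ((ε w : ℤ) : ℝ) * b2 g := by
      simp only [b2]
      rw [Finset.mul_sum, ← Equiv.sum_comp (MulAction.toPerm w : Equiv.Perm (Γ ⧸ H))]
      refine Finset.sum_congr rfl fun q _ => ?_
      have h1 : F (fun i => w * g i) ((MulAction.toPerm w : Equiv.Perm (Γ ⧸ H)) q).out =
          F (fun i => w * g i) (w * q.out) := by
        apply hF'
        rw [QuotientGroup.out_eq', MulAction.toPerm_apply]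
        conv_lhs => rw [← QuotientGroup.out_eq' q]
        rfl
      rw [h1]
      simp only [F]
      rw [map_mul, Units.val_mul, Int.cast_mul, mul_assoc]
      congr 3
      funext i
      group
    change _ * b2 (fun i => w * g i) = _ * (_ * b2 g)
    rw [this]
    ring
  · intro g
    have e1 : cobd (fun g => ((Fintype.card (Γ ⧸ H) : ℕ) : ℝ)⁻¹ * b2 g) g =
        ((Fintype.card (Γ ⧸ H) : ℕ) : ℝ)⁻¹ * ∑ q : Γ ⧸ H, ((ε q.out : ℤ) : ℝ) *
          cobd b1 (fun i => q.out⁻¹ * g i) := by
      unfold cobd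
      simp only [b2, F, Finset.mul_sum]
      rw [Finset.sum_comm]
      refine Finset.sum_congr rfl fun q _ => Finset.sum_congr rfl fun i _ => ?_
      simp only [Function.comp_def]
      ring
    rw [e1]
    have e2 : ∀ q : Γ ⧸ H, ((ε q.out : ℤ) : ℝ) * cobd b1 (fun i => q.out⁻¹ * g i) = c g := by
      intro q
      rw [hd1, hc, map_inv, ← mul_assoc]
      have : (((ε q.out)⁻¹ : ℤˣ) : ℤ) = (ε q.out : ℤ) := by
        rcases Int.units_eq_one_or (ε q.out) with h | h <;> rw [h] <;> simp
      rw [this, hεε, one_mul]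
    rw [Finset.sum_congr rfl fun q _ => e2 q, Finset.sum_const, Finset.card_univ, nsmul_eq_mul,
      ← mul_assoc, inv_mul_cancel₀ hN, one_mul]

end Pool.Agent.Q134.SV
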