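import Pool.Agent.Q134.SV.Rac
import Pool.Agent.Q134.SV.Circle

/-!
The cup product of the orientation cocycle of a map to the pentagon with a cocycle of a link.
-/

set_option autoImplicit false

open scoped Classical Matrix

namespace Pool.Agent.Q134.SV

open Pool.Agent.W907.SG (W cox)

variable {V : Type} {G : SimpleGraph V}

/-- a map of the vertices outside of `K` to the pentagon which maps edges to edges or vertices -/
structure PentMap (G : SimpleGraph V) (K : Set V) (g : V → Option (Fin 5)) : Prop where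
  none_iff : ∀ x, g x = none ↔ x ∈ K
  adj : ∀ x y, G.Adj x y → ∀ i j, g x = some i → g y = some j → j = i ∨ j = i + 1 ∨ i = j + 1

lemma rho_sq (o : Option (Fin 5)) : rho o * rho o = 1 := by
  cases o with
  | none => exact mul_one 1
  | some i => exact rfn_sq i

section

variable {K : Set V} {g : V → Option (Fin 5)} (hg : PentMap G K g)

include hg in
lemma rho_comm (x y : V) (h : G.Adj x y) : rho (g x) * rho (g y) = rho (g y) * rho (g x) := by
  rcases hx : g x with _ | i
  · change 1 * _ = _ * 1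
    rw [one_mul, mul_one]
  rcases hy : g y with _ | j
  · change _ * 1 = 1 * _
    rw [one_mul, mul_one]
  rcases hg.adj x y h i j hx hy with h1 | h1 | h1
  · rw [h1]
  · rw [h1]; exact rfn_comm i
  · rw [h1]; exact (rfn_comm j).symm

/-- the homomorphism to the group of the pentagon -/
noncomputable def Rh : W G →* Matrix (Fin 3) (Fin 3) ℚ :=
  lft G (fun x => rho (g x)) (fun x => rho_sq (g x)) (rho_comm hg)

lemma Rh_gen (x : V) : Rh hg (gen G x) = rho (g x) := lft_gen _ _ _ _ _

/-- the homomorphism to the group of the induced subgraph -/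
noncomputable def toK (G : SimpleGraph V) (K : Set V) : W G →* W (G.induce K) :=
  lft G (fun x => if h : x ∈ K then gen (G.induce K) ⟨x, h⟩ else 1)
    (fun x => by
      split_ifs
      · exact gen_sq _ _
      · exact mul_one 1)
    (fun x y h => by
      by_cases hx : x ∈ K
      · by_cases hy : y ∈ K
        · rw [dif_pos hx, dif_pos hy]
          exact gen_comm _ (by simpa using h)
        · rw [dif_neg hy, mul_one, one_mul]
      · rw [dif_neg hx, mul_one, one_mul])

lemma toK_gen (x : V) (h : x ∈ K) : toK G K (gen G x) = gen (G.induce K) ⟨x, h⟩ := by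
  unfold toK
  rw [lft_gen, dif_pos h]

lemma toK_gen_not (x : V) (h : x ∉ K) : toK G K (gen G x) = 1 := by
  unfold toK
  rw [lft_gen, dif_neg h]

lemma cone_Rh (w : W G) : Cone (Rh hg w *ᵥ xi) := by
  refine gen_induction G (p := fun w => Cone (Rh hg w *ᵥ xi)) w ?_ ?_
  · rw [map_one, Matrix.one_mulVec]; exact cone_xi
  · intro w x hw
    rw [map_mul, Rh_gen, ← Matrix.mulVec_mulVec]
    rcases hx : g x with _ | i
    · change Cone (1 *ᵥ _)
      rwa [Matrix.one_mulVec]
    · exact cone_rfn i hw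

/-- the cup product -/
noncomputable def cup {n : ℕ} (c : (Fin (n + 1) → W (G.induce K)) → ℝ) :
    (Fin (n + 3) → W G) → ℝ :=
  fun w => orc (Rh hg (w 0)) (Rh hg (w 1)) (Rh hg (w 2)) * c (fun i => toK G K (w i.succ.succ))

lemma cup_cons {n : ℕ} (c : (Fin (n + 1) → W (G.induce K)) → ℝ) (x y : W G)
    (w : Fin (n + 1) → W G) : cup hg c (Fin.cons x (Fin.cons y w)) =
      orc (Rh hg x) (Rh hg y) (Rh hg (w 0)) * c (toK G K ∘ w) := rfl

lemma cup_coc {n : ℕ} {c : (Fin (n + 1) → W (G.induce K)) → ℝ}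
    (hc : ∀ g : Fin (n + 2) → W (G.induce K), cobd c g = 0) (w : Fin (n + 4) → W G) :
    cobd (cup hg c) w = 0 := by
  obtain ⟨x0, w1, rfl⟩ : ∃ x w', w = (Fin.cons x w' : Fin (n + 4) → W G) :=
    ⟨w 0, Fin.tail w, (Fin.cons_self_tail w).symm⟩
  obtain ⟨x1, w2, rfl⟩ : ∃ x w', w1 = (Fin.cons x w' : Fin (n + 3) → W G) :=
    ⟨w1 0, Fin.tail w1, (Fin.cons_self_tail w1).symm⟩
  obtain ⟨x2, w3, rfl⟩ : ∃ x w', w2 = (Fin.cons x w' : Fin (n + 2) → W G) :=
    ⟨w2 0, Fin.tail w2, (Fin.cons_self_tail w2).symm⟩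
  rw [cobd_cons, cobd_cons, cobd_cons]
  have e0 : ∀ v : Fin n → W G, cup hg c (Fin.cons x0 (Fin.cons x1 (Fin.cons x2 v))) =
      orc (Rh hg x0) (Rh hg x1) (Rh hg x2) *
        (fun v' => c (Fin.cons (toK G K x2) v')) (toK G K ∘ v) := by
    intro v
    rw [cup_cons]
    change _ * c (toK G K ∘ (Fin.cons x2 v : Fin (n + 1) → W G)) = _
    have : toK G K ∘ (Fin.cons x2 v : Fin (n + 1) → W G) =
        Fin.cons (toK G K x2) (toK G K ∘ v) := by
      funext j
      refine Fin.cases ?_ (fun k => ?_) j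
      · simp
      · simp
    rw [this]
    rfl
  have e1 : cobd (fun v => cup hg c (Fin.cons x0 (Fin.cons x1 (Fin.cons x2 v)))) w3 =
      orc (Rh hg x0) (Rh hg x1) (Rh hg x2) * c (toK G K ∘ w3) := by
    simp only [e0]
    have h1 := cobd_cons c (toK G K x2) (toK G K ∘ w3)
    rw [hc] at h1
    have h2 : c (toK G K ∘ w3) =
        cobd (fun v' => c (Fin.cons (toK G K x2) v')) (toK G K ∘ w3) := by linarith
    rw [h2]
    unfold cobd
    rw [Finset.mul_sum]
    refine Finset.sum_congr rfl fun i _ => ?_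
    simp only [Function.comp_assoc]
    ring
  rw [e1, cup_cons, cup_cons, cup_cons]
  have h := sg_dt_cocycle (cone_Rh hg x0) (cone_Rh hg x1) (cone_Rh hg x2) (cone_Rh hg (w3 0))
  have h' : orc (Rh hg x1) (Rh hg x2) (Rh hg (w3 0)) - orc (Rh hg x0) (Rh hg x2) (Rh hg (w3 0)) +
    orc (Rh hg x0) (Rh hg x1) (Rh hg (w3 0)) - orc (Rh hg x0) (Rh hg x1) (Rh hg x2) = 0 := h
  linear_combination c (toK G K ∘ w3) * h'

theorem good_cup {n : ℕ} {c : (Fin (n + 1) → W (G.induce K)) → ℝ}
    (hc : Good (G.induce K) n c) : Good G (n + 2) (cup hg c) := by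
  refine ⟨?_, cup_coc hg hc.coc, ?_, ?_⟩
  · intro x w
    unfold cup
    simp only [map_mul]
    rw [Rh_gen]
    by_cases hx : x ∈ K
    · rw [(hg.none_iff x).2 hx]
      simp only [toK_gen x hx, hc.gen]
      change orc (1 * _) (1 * _) (1 * _) * _ = _
      simp only [one_mul]
      ring
    · simp only [toK_gen_not x hx, one_mul]
      rcases hx' : g x with _ | i
      · exact absurd ((hg.none_iff x).1 hx') hx
      · change orc (rfn i * _) (rfn i * _) (rfn i * _) * _ = _
        rw [orc_rfn]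
        ring
  · obtain ⟨C, hC⟩ := hc.bdd
    refine ⟨C, fun w => ?_⟩
    unfold cup
    rw [abs_mul]
    calc _ ≤ 1 * |c (fun i => toK G K (w i.succ.succ))| :=
          mul_le_mul_of_nonneg_right (abs_orc_le _ _ _) (abs_nonneg _)
      _ ≤ C := by rw [one_mul]; exact hC _
  · intro w i h
    unfold cup
    refine Fin.cases ?_ (fun j => ?_) i h
    · intro h
      have : w 0 = w 1 := h
      rw [this, orc_self_left, zero_mul]
    · refine Fin.cases ?_ (fun k => ?_) j
      · intro h
        have : w 1 = w 2 := h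
        rw [this, orc_self_right, zero_mul]
      · intro h
        rw [hc.nrm (fun i => toK G K (w i.succ.succ)) k, mul_zero]
        exact congrArg (toK G K) h

end

end Pool.Agent.Q134.SV
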