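import Pool.Agent.Q134.SV.Coc

/-!
Top-dimensional cycles of flag complexes, and their pairing with cochains of groups.
-/

set_option autoImplicit false

open scoped Classical

namespace Pool.Agent.Q134.SV

/-- `a` is a real `(n-1)`-cycle of the flag complex of `G`: an alternating function on `n`-tuples of
vertices, which vanishes on tuples which are not simplices, with zero boundary. -/
structure IsCyc (n : ℕ) {V : Type} [Fintype V] (G : SimpleGraph V) (a : (Fin n → V) → ℝ) :
    Prop where
  alt : ∀ (v : Fin n → V) (i j : Fin n), i ≠ j → a (v ∘ Equiv.swap i j) = - a v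
  supp : ∀ v : Fin n → V, a v ≠ 0 → ∀ i j, i ≠ j → G.Adj (v i) (v j)
  cyc : ∀ (v : Fin n → V) (i : Fin n), ∑ x, a (Function.update v i x) = 0

variable {V V₀ : Type} [Fintype V] [Fintype V₀] {G : SimpleGraph V} {G₀ : SimpleGraph V₀}

lemma sum_insertNth {m : ℕ} {a : (Fin (m + 1) → V) → ℝ} (ha : IsCyc (m + 1) G a)
    (p : Fin (m + 1)) (u : Fin m → V) : ∑ x, a (p.insertNth (α := fun _ => V) x u) = 0 := by
  rcases isEmpty_or_nonempty V with h | ⟨⟨x₀⟩⟩
  · simp
  · have := ha.cyc (p.insertNth (α := fun _ => V) x₀ u) p
    simpa only [Fin.update_insertNth] using this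

/-- the pairing of a chain with a cochain -/
noncomputable def pair {Γ : Type} [Group Γ] {n : ℕ} (γ : V → Γ) (a : (Fin n → V) → ℝ)
    (c : (Fin (n + 1) → Γ) → ℝ) : ℝ := ∑ v : Fin n → V, a v * c (Fin.partialProd (γ ∘ v))

/-- Stokes -/
theorem stokes {Γ : Type} [Group Γ] {m : ℕ} (γ : V → Γ)
    (hcomm : ∀ x y, G.Adj x y → γ x * γ y = γ y * γ x) {a : (Fin (m + 1) → V) → ℝ}
    (ha : IsCyc (m + 1) G a) (b : (Fin (m + 1) → Γ) → ℝ)
    (hb : ∀ x g, b (fun i => γ x * g i) = - b g) : pair γ a (cobd b) = 0 := by
  unfold pair cobd
  simp only [Finset.mul_sum]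
  rw [Finset.sum_comm]
  refine Finset.sum_eq_zero fun i _ => ?_
  have hred : ∑ v : Fin (m + 1) → V, a v * b (Fin.partialProd (γ ∘ v) ∘ i.succAbove) = 0 := by
    refine Fin.cases ?_ (fun j => ?_) i
    · rw [← Equiv.sum_comp (Fin.insertNthEquiv (fun _ : Fin (m + 1) => V) 0), Fintype.sum_prod_type,
        Finset.sum_comm]
      refine Finset.sum_eq_zero fun u _ => ?_
      have : ∀ x : V, a ((Fin.insertNthEquiv (fun _ : Fin (m + 1) => V) 0) (x, u)) *
          b (Fin.partialProd (γ ∘ (Fin.insertNthEquiv (fun _ : Fin (m + 1) => V) 0) (x, u)) ∘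
            (0 : Fin (m + 2)).succAbove) =
          a ((0 : Fin (m + 1)).insertNth (α := fun _ => V) x u) *
            (- b (Fin.partialProd (γ ∘ u))) := by
        intro x
        rw [← hb x]
        congr 2
        funext j
        simp only [Function.comp_apply, Fin.succAbove_zero]
        rw [Fin.partialProd_succ']
        congr 1
      rw [Finset.sum_congr rfl fun x _ => this x, ← Finset.sum_mul, sum_insertNth ha, zero_mul]
    · have e : ∀ v : Fin (m + 1) → V, Fin.partialProd (γ ∘ v) ∘ j.succ.succAbove =
          Fin.partialProd (Fin.contractNth j (· * ·) (γ ∘ v)) :=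
        fun v => (Fin.partialProd_contractNth (γ ∘ v) j).symm
      simp only [e]
      refine Fin.lastCases ?_ (fun k => ?_) j
      · rw [← Equiv.sum_comp (Fin.insertNthEquiv (fun _ : Fin (m + 1) => V) (Fin.last m)),
          Fintype.sum_prod_type, Finset.sum_comm]
        refine Finset.sum_eq_zero fun u _ => ?_
        have : ∀ x : V, a ((Fin.insertNthEquiv (fun _ : Fin (m + 1) => V) (Fin.last m)) (x, u)) *
            b (Fin.partialProd (Fin.contractNth (Fin.last m) (· * ·)
              (γ ∘ (Fin.insertNthEquiv (fun _ : Fin (m + 1) => V) (Fin.last m)) (x, u)))) =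
            a ((Fin.last m).insertNth (α := fun _ => V) x u) * (b (Fin.partialProd (γ ∘ u))) := by
          intro x
          congr 3
          funext l
          rw [Fin.contractNth_apply_of_lt _ _ _ _ (by simp)]
          simp
        rw [Finset.sum_congr rfl fun x _ => this x, ← Finset.sum_mul, sum_insertNth ha, zero_mul]
      · have hne : k.castSucc ≠ k.succ := (Fin.castSucc_lt_succ).ne
        set σ := Equiv.swap k.castSucc k.succ with hσ
        have h1 : ∑ v : Fin (m + 1) → V, a v *
            b (Fin.partialProd (Fin.contractNth k.castSucc (· * ·) (γ ∘ v))) =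
            ∑ v : Fin (m + 1) → V, - (a v *
            b (Fin.partialProd (Fin.contractNth k.castSucc (· * ·) (γ ∘ v)))) := by
          rw [← Equiv.sum_comp (Equiv.arrowCongr σ (Equiv.refl V))]
          refine Finset.sum_congr rfl fun v _ => ?_
          have e1 : (Equiv.arrowCongr σ (Equiv.refl V)) v = v ∘ σ := by
            funext l
            simp [Equiv.arrowCongr, hσ]
          rw [e1, ha.alt v _ _ hne]
          by_cases h0 : a v = 0
          · rw [h0]; simp
          · have hadj := ha.supp v h0 _ _ hne
            have e2 : Fin.contractNth k.castSucc (· * ·) (γ ∘ v ∘ σ) =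
                Fin.contractNth k.castSucc (· * ·) (γ ∘ v) := by
              funext l
              rcases lt_trichotomy (l : ℕ) (k : ℕ) with h | h | h
              · rw [Fin.contractNth_apply_of_lt _ _ _ _ (by simpa using h),
                  Fin.contractNth_apply_of_lt _ _ _ _ (by simpa using h)]
                simp only [Function.comp_apply, hσ]
                rw [Equiv.swap_apply_of_ne_of_ne]
                · intro e; rw [Fin.ext_iff] at e; simp at e; omega
                · intro e; rw [Fin.ext_iff] at e; simp at e; omega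
              · rw [Fin.contractNth_apply_of_eq _ _ _ _ (by simpa using h),
                  Fin.contractNth_apply_of_eq _ _ _ _ (by simpa using h)]
                have : l = k := Fin.ext h
                subst this
                simp only [Function.comp_apply, hσ, Equiv.swap_apply_left, Equiv.swap_apply_right]
                exact (hcomm _ _ hadj).symm
              · rw [Fin.contractNth_apply_of_gt _ _ _ _ (by simpa using h),
                  Fin.contractNth_apply_of_gt _ _ _ _ (by simpa using h)]
                simp only [Function.comp_apply, hσ]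
                rw [Equiv.swap_apply_of_ne_of_ne]
                · intro e; rw [Fin.ext_iff] at e; simp at e; omega
                · intro e; rw [Fin.ext_iff] at e; simp at e; omega
            rw [e2]
            ring
        rw [Finset.sum_neg_distrib] at h1
        linarith
  calc ∑ v : Fin (m + 1) → V, a v * ((-1) ^ (i : ℕ) * b (Fin.partialProd (γ ∘ v) ∘ i.succAbove))
      = (-1) ^ (i : ℕ) * ∑ v : Fin (m + 1) → V, a v * b (Fin.partialProd (γ ∘ v) ∘ i.succAbove) := by
        rw [Finset.mul_sum]
        exact Finset.sum_congr rfl fun v _ => by ring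
    _ = 0 := by rw [hred, mul_zero]

/-! ### Push-forward -/

/-- the image of a chain under a map of the vertices -/
noncomputable def push {n : ℕ} (f : V → V₀) (a : (Fin n → V) → ℝ) : (Fin n → V₀) → ℝ :=
  fun u => ∑ v : Fin n → V, if f ∘ v = u then a v else 0

omit [Fintype V] in
lemma alt_self {n : ℕ} {a : (Fin n → V) → ℝ}
    (alt : ∀ (v : Fin n → V) (i j : Fin n), i ≠ j → a (v ∘ Equiv.swap i j) = - a v)
    (v : Fin n → V) {i j : Fin n} (hij : i ≠ j) (h : v i = v j) : a v = 0 := by
  have h1 := alt v i j hij
  have h2 : v ∘ Equiv.swap i j = v := by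
    funext k
    simp only [Function.comp_apply]
    rcases eq_or_ne k i with rfl | hk
    · rw [Equiv.swap_apply_left, h]
    · rcases eq_or_ne k j with rfl | hk'
      · rw [Equiv.swap_apply_right, h]
      · rw [Equiv.swap_apply_of_ne_of_ne hk hk']
  rw [h2] at h1
  linarith

lemma sum_update {n : ℕ} (F : (Fin n → V) → ℝ) (i : Fin n) :
    ∑ v : Fin n → V, ∑ x, F (Function.update v i x) =
      (Fintype.card V : ℝ) * ∑ v : Fin n → V, F v := by
  let e : (Fin n → V) × V ≃ (Fin n → V) × V :=
    { toFun := fun p => (Function.update p.1 i p.2, p.1 i)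
      invFun := fun p => (Function.update p.1 i p.2, p.1 i)
      left_inv := fun p => by simp
      right_inv := fun p => by simp }
  have h1 : ∑ p : (Fin n → V) × V, F (Function.update p.1 i p.2) = ∑ p : (Fin n → V) × V, F p.1 := by
    rw [← Equiv.sum_comp e fun p => F p.1]
    rfl
  rw [Fintype.sum_prod_type, Fintype.sum_prod_type] at h1
  rw [h1, Finset.mul_sum]
  simp

lemma sum_push_eq {n : ℕ} (Q a : (Fin n → V) → ℝ) (i : Fin n)
    (hQ : ∀ v x, Q (Function.update v i x) = Q v)
    (ha : ∀ v, ∑ x, a (Function.update v i x) = 0) : ∑ v : Fin n → V, Q v * a v = 0 := by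
  have h := sum_update (fun v => Q v * a v) i
  have h2 : ∑ v : Fin n → V, ∑ x, Q (Function.update v i x) * a (Function.update v i x) = 0 := by
    refine Finset.sum_eq_zero fun v _ => ?_
    simp only [hQ]
    rw [← Finset.mul_sum, ha, mul_zero]
  rw [h2] at h
  rcases isEmpty_or_nonempty V with he | hn
  · have : IsEmpty (Fin n → V) := ⟨fun v => he.elim (v i)⟩
    simp
  · have : (Fintype.card V : ℝ) ≠ 0 := by
      rw [Nat.cast_ne_zero]
      exact Fintype.card_ne_zero
    rcases mul_eq_zero.1 h.symm with h | h
    · exact absurd h this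
    · exact h

theorem IsCyc.push {n : ℕ} {a : (Fin n → V) → ℝ} (ha : IsCyc n G a) (f : V → V₀)
    (hf : ∀ x y, G.Adj x y → f x = f y ∨ G₀.Adj (f x) (f y)) : IsCyc n G₀ (push f a) := by
  have halt : ∀ (u : Fin n → V₀) (i j : Fin n), i ≠ j →
      Pool.Agent.Q134.SV.push f a (u ∘ Equiv.swap i j) = - Pool.Agent.Q134.SV.push f a u := by
    intro u i j hij
    unfold Pool.Agent.Q134.SV.push
    rw [← Equiv.sum_comp (Equiv.arrowCongr (Equiv.swap i j) (Equiv.refl V)),
      ← Finset.sum_neg_distrib]
    refine Finset.sum_congr rfl fun v _ => ?_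
    have e1 : (Equiv.arrowCongr (Equiv.swap i j) (Equiv.refl V)) v = v ∘ Equiv.swap i j := by
      funext l
      simp [Equiv.arrowCongr]
    rw [e1, ha.alt v _ _ hij]
    have : f ∘ v ∘ ⇑(Equiv.swap i j) = u ∘ ⇑(Equiv.swap i j) ↔ f ∘ v = u := by
      constructor
      · intro h
        funext k
        have := congrFun h (Equiv.swap i j k)
        simpa using this
      · intro h
        rw [← h]
        rfl
    simp only [this]
    split_ifs <;> simp
  refine ⟨halt, ?_, ?_⟩
  · intro u hu i j hij
    by_contra hc
    obtain ⟨v, -, hv⟩ := Finset.exists_ne_zero_of_sum_ne_zero hu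
    by_cases h1 : f ∘ v = u
    · rw [if_pos h1] at hv
      have h2 := hf _ _ (ha.supp v hv i j hij)
      subst h1
      rcases h2 with h2 | h2
      · exact hu (alt_self halt _ hij h2)
      · exact hc h2
    · rw [if_neg h1] at hv
      exact hv rfl
  · intro u i
    unfold Pool.Agent.Q134.SV.push
    rw [Finset.sum_comm]
    have h1 : ∀ v : Fin n → V, (∑ x, if f ∘ v = Function.update u i x then a v else 0) =
        (if ∀ j, j ≠ i → f (v j) = u j then (1 : ℝ) else 0) * a v := by
      intro v
      by_cases h : ∀ j, j ≠ i → f (v j) = u j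
      · rw [if_pos h, one_mul, Finset.sum_eq_single (f (v i))]
        · rw [if_pos]
          funext j
          rcases eq_or_ne j i with rfl | hj
          · simp
          · simp [Function.update_of_ne hj, h j hj]
        · intro x _ hx
          rw [if_neg]
          intro e
          apply hx
          have := congrFun e i
          simp at this
          exact this.symm
        · intro h'
          exact absurd (Finset.mem_univ _) h'
      · rw [if_neg h, zero_mul]
        refine Finset.sum_eq_zero fun x _ => ?_
        rw [if_neg]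
        intro e
        apply h
        intro j hj
        have := congrFun e j
        rw [Function.update_of_ne hj] at this
        exact this
    rw [Finset.sum_congr rfl fun v _ => h1 v]
    refine sum_push_eq _ a i ?_ fun v => ha.cyc v i
    intro v x
    congr 1
    apply propext
    refine forall_congr' fun j => forall_congr' fun hj => ?_
    rw [Function.update_of_ne hj]

theorem pair_push {Γ : Type} [Group Γ] {n : ℕ} (f : V → V₀) (γ : V₀ → Γ) (a : (Fin n → V) → ℝ)
    (c : (Fin (n + 1) → Γ) → ℝ) : pair γ (push f a) c = pair (γ ∘ f) a c := by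
  unfold pair push
  simp only [Finset.sum_mul]
  rw [Finset.sum_comm]
  refine Finset.sum_congr rfl fun v _ => ?_
  rw [Finset.sum_eq_single (f ∘ v)]
  · rw [if_pos rfl]
    rfl
  · intro u _ hu
    rw [if_neg (fun h => hu h.symm), zero_mul]
  · intro h
    exact absurd (Finset.mem_univ _) h

end Pool.Agent.Q134.SV
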