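import Pool.Agent.Q134.SV.Cup

/-!
The pairing of the cup product with a cycle.
-/

set_option autoImplicit false

open scoped Classical Matrix

namespace Pool.Agent.Q134.SV

open Pool.Agent.W907.SG (W cox)

variable {V : Type} [Fintype V] {G : SimpleGraph V}

/-- the link of a cycle at an edge -/
def lnk {n : ℕ} (a : (Fin (n + 2) → V) → ℝ) (s t : V) (K : Set V) : (Fin n → K) → ℝ :=
  fun u => a (Fin.cons s (Fin.cons t (fun i => (u i : V))))

lemma lnk_swap {n : ℕ} (s t : V) (u : Fin n → V) (i j : Fin n) :
    (Fin.cons s (Fin.cons t (u ∘ Equiv.swap i j)) : Fin (n + 2) → V) =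
      (Fin.cons s (Fin.cons t u) : Fin (n + 2) → V) ∘ Equiv.swap i.succ.succ j.succ.succ := by
  funext l
  refine Fin.cases ?_ (fun l => Fin.cases ?_ (fun l => ?_) l) l
  · simp only [Function.comp_apply]
    rw [Equiv.swap_apply_of_ne_of_ne]
    · rfl
    · exact (Fin.succ_ne_zero _).symm
    · exact (Fin.succ_ne_zero _).symm
  · simp only [Function.comp_apply]
    rw [Equiv.swap_apply_of_ne_of_ne]
    · rfl
    · intro h
      exact (Fin.succ_ne_zero _).symm (Fin.succ_injective _ h)
    · intro h
      exact (Fin.succ_ne_zero _).symm (Fin.succ_injective _ h)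
  · simp only [Function.comp_apply, Fin.cons_succ]
    rcases eq_or_ne l i with rfl | h1
    · rw [Equiv.swap_apply_left, Equiv.swap_apply_left]; rfl
    · rcases eq_or_ne l j with rfl | h2
      · rw [Equiv.swap_apply_right, Equiv.swap_apply_right]; rfl
      · rw [Equiv.swap_apply_of_ne_of_ne h1 h2, Equiv.swap_apply_of_ne_of_ne]
        · rfl
        · intro h
          exact h1 (Fin.succ_injective _ (Fin.succ_injective _ h))
        · intro h
          exact h2 (Fin.succ_injective _ (Fin.succ_injective _ h))

theorem isCyc_lnk {n : ℕ} {a : (Fin (n + 2) → V) → ℝ} (ha : IsCyc (n + 2) G a) (s t : V)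
    (K : Set V) [Fintype K] (hK : ∀ x, G.Adj s x → G.Adj t x → x ∈ K) :
    IsCyc n (G.induce K) (lnk a s t K) := by
  refine ⟨?_, ?_, ?_⟩
  · intro u i j hij
    unfold lnk
    have h := lnk_swap s t (fun i => (u i : V)) i j
    rw [← ha.alt _ i.succ.succ j.succ.succ (by
      intro h
      exact hij (Fin.succ_injective _ (Fin.succ_injective _ h))), ← h]
    rfl
  · intro u hu i j hij
    have := ha.supp _ hu i.succ.succ j.succ.succ (by
      intro h
      exact hij (Fin.succ_injective _ (Fin.succ_injective _ h)))
    simpa using this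
  · intro u i
    have h := ha.cyc (Fin.cons s (Fin.cons t (fun i => (u i : V)))) i.succ.succ
    rw [← h]
    refine Fintype.sum_of_injective (fun x : K => (x : V)) Subtype.val_injective _ _ ?_ ?_
    · intro x hx
      by_contra hne
      apply hx
      have h1 := ha.supp _ hne 0 i.succ.succ (Fin.succ_ne_zero _).symm
      have h2 := ha.supp _ hne (Fin.succ 0) i.succ.succ (by
        intro h
        exact (Fin.succ_ne_zero _).symm (Fin.succ_injective _ h))
      rw [Function.update_self] at h1 h2
      rw [Function.update_of_ne (Fin.succ_ne_zero _).symm] at h1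
      rw [Function.update_of_ne (by
        intro h
        exact (Fin.succ_ne_zero _).symm (Fin.succ_injective _ h))] at h2
      exact ⟨⟨x, hK x h1 h2⟩, rfl⟩
    · intro x
      unfold lnk
      congr 1
      rw [← Fin.cons_update, ← Fin.cons_update]
      congr 2
      funext l
      rcases eq_or_ne l i with rfl | hl
      · simp
      · simp [Function.update_of_ne hl]

lemma sum_cons {m : ℕ} (F : (Fin (m + 1) → V) → ℝ) :
    ∑ v : Fin (m + 1) → V, F v = ∑ x, ∑ u : Fin m → V, F (Fin.cons x u) := by
  rw [← (Fin.consEquiv (fun _ : Fin (m + 1) => V)).sum_comp, Fintype.sum_prod_type]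
  rfl

lemma swap_cons_cons {n : ℕ} (x y : V) (u : Fin n → V) :
    (Fin.cons x (Fin.cons y u) : Fin (n + 2) → V) ∘ Equiv.swap 0 1 =
      Fin.cons y (Fin.cons x u) := by
  funext l
  refine Fin.cases ?_ (fun l => Fin.cases ?_ (fun l => ?_) l) l
  · simp only [Function.comp_apply]
    rw [Equiv.swap_apply_left]
    rfl
  · simp only [Function.comp_apply]
    have : (Fin.succ 0 : Fin (n + 2)) = 1 := rfl
    rw [this, Equiv.swap_apply_right]
    rfl
  · simp only [Function.comp_apply]
    rw [Equiv.swap_apply_of_ne_of_ne (Fin.succ_ne_zero _) (by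
      intro h
      exact (Fin.succ_ne_zero _) (Fin.succ_injective _ h))]
    rfl

variable {K : Set V} {g : V → Option (Fin 5)}

/-- the inner sum -/
lemma inner_sum {n : ℕ} (hg : PentMap G K g) {a : (Fin (n + 2) → V) → ℝ}
    (ha : IsCyc (n + 2) G a) {s t : V} (hs : ∀ x, g x = some 0 ↔ x = s)
    (ht : ∀ x, g x = some 1 ↔ x = t) (u : Fin n → V)
    (hfree : ∀ x ∈ K, ∀ y, a (Fin.cons x (Fin.cons y u)) = 0) :
    ∑ x, ∑ y, a (Fin.cons x (Fin.cons y u)) * dd (g x) (g y) =
      -2 * a (Fin.cons s (Fin.cons t u)) := by
  set b : V → V → ℝ := fun x y => a (Fin.cons x (Fin.cons y u)) with hb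
  have anti : ∀ x y, b x y = - b y x := by
    intro x y
    have h := ha.alt (Fin.cons y (Fin.cons x u)) 0 1 (by simp)
    rw [swap_cons_cons] at h
    exact h
  have supp : ∀ x y, b x y ≠ 0 → G.Adj x y := fun x y h =>
    ha.supp _ h 0 1 (by simp)
  have cyc : ∀ y, ∑ x, b x y = 0 := by
    intro y
    have h := sum_insertNth ha 0 (Fin.cons y u)
    simpa only [Fin.insertNth_zero'] using h
  let β : Fin 5 → Fin 5 → ℝ := fun i j =>
    ∑ x, ∑ y, if g x = some i ∧ g y = some j then b x y else 0
  have h1 : ∑ x, ∑ y, b x y * dd (g x) (g y) = ∑ i, ∑ j, β i j * dd (some i) (some j) := by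
    have e : ∀ x y, b x y * dd (g x) (g y) = ∑ i, ∑ j,
        (if g x = some i ∧ g y = some j then b x y else 0) * dd (some i) (some j) := by
      intro x y
      rcases hx : g x with _ | i
      · rw [dd_none_left, mul_zero]
        symm
        refine Finset.sum_eq_zero fun i _ => Finset.sum_eq_zero fun j _ => ?_
        rw [if_neg (by simp), zero_mul]
      · rcases hy : g y with _ | j
        · rw [dd_none_right, mul_zero]
          symm
          refine Finset.sum_eq_zero fun i _ => Finset.sum_eq_zero fun j _ => ?_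
          rw [if_neg (by simp), zero_mul]
        · rw [Finset.sum_eq_single i, Finset.sum_eq_single j]
          · rw [if_pos ⟨rfl, rfl⟩]
          · intro j' _ hj
            rw [if_neg (fun h => hj (Option.some_injective _ h.2).symm), zero_mul]
          · intro h
            exact absurd (Finset.mem_univ _) h
          · intro i' _ hi
            refine Finset.sum_eq_zero fun j' _ => ?_
            rw [if_neg (fun h => hi (Option.some_injective _ h.1).symm), zero_mul]
          · intro h
            exact absurd (Finset.mem_univ _) h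
    simp only [e, β, Finset.sum_mul]
    rw [Finset.sum_congr rfl fun x _ => Finset.sum_comm]
    rw [Finset.sum_comm]
    refine Finset.sum_congr rfl fun i _ => ?_
    rw [Finset.sum_congr rfl fun x _ => Finset.sum_comm]
    rw [Finset.sum_comm]
  have h2 : ∀ i j, β i j = - β j i := by
    intro i j
    simp only [β]
    rw [Finset.sum_comm, ← Finset.sum_neg_distrib]
    refine Finset.sum_congr rfl fun y _ => ?_
    rw [← Finset.sum_neg_distrib]
    refine Finset.sum_congr rfl fun x _ => ?_
    rw [anti x y]
    by_cases h : g x = some i ∧ g y = some j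
    · rw [if_pos h, if_pos ⟨h.2, h.1⟩]
    · rw [if_neg h, if_neg (fun h' => h ⟨h'.2, h'.1⟩), neg_zero]
  have h3 : ∀ i j, j ≠ i + 1 → i ≠ j + 1 → β i j = 0 := by
    intro i j hij hji
    rcases eq_or_ne i j with rfl | hne
    · have := h2 i i
      linarith
    · refine Finset.sum_eq_zero fun x _ => Finset.sum_eq_zero fun y _ => ?_
      by_cases h : g x = some i ∧ g y = some j
      · rw [if_pos h]
        by_contra h0
        rcases hg.adj x y (supp x y h0) i j h.1 h.2 with h' | h' | h'
        · exact hne h'.symm
        · exact hij h'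
        · exact hji h'
      · rw [if_neg h]
  have h4 : ∀ j, ∑ i, β i j = 0 := by
    intro j
    simp only [β]
    rw [Finset.sum_comm]
    have e : ∀ x, ∑ i, ∑ y, (if g x = some i ∧ g y = some j then b x y else 0) =
        ∑ y, if g y = some j then b x y else 0 := by
      intro x
      rw [Finset.sum_comm]
      refine Finset.sum_congr rfl fun y _ => ?_
      rcases hx : g x with _ | i
      · have h0 : b x y = 0 := hfree x ((hg.none_iff x).1 hx) y
        rw [h0]
        simp
      · rw [Finset.sum_eq_single i]
        · simp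
        · intro i' _ hi
          rw [if_neg (fun h => hi (Option.some_injective _ h.1).symm)]
        · intro h
          exact absurd (Finset.mem_univ _) h
    rw [Finset.sum_congr rfl fun x _ => e x, Finset.sum_comm]
    refine Finset.sum_eq_zero fun y _ => ?_
    by_cases h : g y = some j
    · simp only [if_pos h]
      exact cyc y
    · simp only [if_neg h]
      exact Finset.sum_const_zero
  have h5 : β 0 1 = b s t := by
    simp only [β]
    rw [Finset.sum_eq_single s, Finset.sum_eq_single t]
    · rw [if_pos ⟨(hs s).2 rfl, (ht t).2 rfl⟩]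
    · intro y _ hy
      rw [if_neg (fun h => hy ((ht y).1 h.2))]
    · intro h
      exact absurd (Finset.mem_univ _) h
    · intro x _ hx
      refine Finset.sum_eq_zero fun y _ => ?_
      rw [if_neg (fun h => hx ((hs x).1 h.1))]
    · intro h
      exact absurd (Finset.mem_univ _) h
  rw [h1, pent_sum β h2 h3 h4, h5]

lemma toK_partialProd {n : ℕ} (u : Fin n → K) (i : Fin (n + 1)) :
    toK G K (Fin.partialProd (gen G ∘ fun j => (u j : V)) i) =
      Fin.partialProd (gen (G.induce K) ∘ u) i := by
  refine Fin.induction ?_ (fun j hj => ?_) i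
  · rw [Fin.partialProd_zero, Fin.partialProd_zero, map_one]
  · rw [Fin.partialProd_succ, Fin.partialProd_succ, map_mul, hj]
    congr 1
    exact toK_gen (u j : V) (u j).2

theorem pair_cup {n : ℕ} [Fintype K] (hg : PentMap G K g) {a : (Fin (n + 2) → V) → ℝ}
    (ha : IsCyc (n + 2) G a) {s t : V} (hs : ∀ x, g x = some 0 ↔ x = s)
    (ht : ∀ x, g x = some 1 ↔ x = t)
    (hfree : ∀ u : Fin n → K, ∀ x ∈ K, ∀ y, a (Fin.cons x (Fin.cons y fun i => (u i : V))) = 0)
    {c : (Fin (n + 1) → W (G.induce K)) → ℝ} (hc : Good (G.induce K) n c) :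
    pair (gen G) a (cup hg c) = -2 * pair (gen (G.induce K)) (lnk a s t K) c := by
  have h1 : pair (gen G) a (cup hg c) = ∑ x, ∑ y, ∑ u : Fin n → V,
      a (Fin.cons x (Fin.cons y u)) * (dd (g x) (g y) *
        c (toK G K ∘ Fin.partialProd (gen G ∘ u))) := by
    unfold pair
    rw [sum_cons]
    refine Finset.sum_congr rfl fun x _ => ?_
    rw [sum_cons]
    refine Finset.sum_congr rfl fun y _ => Finset.sum_congr rfl fun u _ => ?_
    congr 1
    have e0 : Fin.partialProd (gen G ∘ (Fin.cons x (Fin.cons y u) : Fin (n + 2) → V)) 0 = 1 :=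
      Fin.partialProd_zero _
    have e1 : Fin.partialProd (gen G ∘ (Fin.cons x (Fin.cons y u) : Fin (n + 2) → V)) 1 =
        gen G x := by
      have h : (1 : Fin (n + 3)) = Fin.succ 0 := rfl
      rw [h, Fin.partialProd_succ', Fin.partialProd_zero, mul_one]
      rfl
    have e3 : ∀ i : Fin (n + 1),
        Fin.partialProd (gen G ∘ (Fin.cons x (Fin.cons y u) : Fin (n + 2) → V)) i.succ.succ =
        gen G x * (gen G y * Fin.partialProd (gen G ∘ u) i) := by
      intro i
      rw [Fin.partialProd_succ', Fin.partialProd_succ']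
      rfl
    have e2 : Fin.partialProd (gen G ∘ (Fin.cons x (Fin.cons y u) : Fin (n + 2) → V)) 2 =
        gen G x * gen G y := by
      have h : (2 : Fin (n + 3)) = Fin.succ (Fin.succ 0) := rfl
      rw [h, e3, Fin.partialProd_zero, mul_one]
    unfold cup
    rw [e0, e1, e2]
    simp only [e3, map_mul, map_one, Rh_gen]
    change dd (g x) (g y) * _ = _
    by_cases hx : x ∈ K
    · rw [(hg.none_iff x).2 hx, dd_none_left, zero_mul, zero_mul]
    · by_cases hy : y ∈ K
      · rw [(hg.none_iff y).2 hy, dd_none_right, zero_mul, zero_mul]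
      · simp only [toK_gen_not x hx, toK_gen_not y hy, one_mul]
        rfl
  have h2 : ∑ x, ∑ y, ∑ u : Fin n → V, a (Fin.cons x (Fin.cons y u)) * (dd (g x) (g y) *
        c (toK G K ∘ Fin.partialProd (gen G ∘ u))) =
      ∑ u : Fin n → V, c (toK G K ∘ Fin.partialProd (gen G ∘ u)) *
        ∑ x, ∑ y, a (Fin.cons x (Fin.cons y u)) * dd (g x) (g y) := by
    simp only [Finset.mul_sum]
    rw [Finset.sum_congr rfl fun x _ => Finset.sum_comm]
    rw [Finset.sum_comm]
    refine Finset.sum_congr rfl fun u _ => Finset.sum_congr rfl fun x _ =>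
      Finset.sum_congr rfl fun y _ => by ring
  rw [h1, h2]
  unfold pair
  rw [Finset.mul_sum]
  symm
  refine Fintype.sum_of_injective (fun (u : Fin n → K) (j : Fin n) => (u j : V)) ?_ _ _ ?_ ?_
  · intro u u' h
    funext j
    exact Subtype.ext (congrFun h j)
  · intro u hu
    have : ∃ j, u j ∉ K := by
      by_contra h
      push Not at h
      exact hu ⟨fun j => ⟨u j, h j⟩, rfl⟩
    obtain ⟨j, hj⟩ := this
    rw [hc.nrm _ j, zero_mul]
    simp only [Function.comp_apply]
    rw [Fin.partialProd_succ, map_mul]
    have : toK G K ((gen G ∘ u) j) = 1 := toK_gen_not (u j) hj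
    rw [this, mul_one]
  · intro u
    rw [inner_sum hg ha hs ht _ (fun x hx y => hfree u x hx y)]
    have : toK G K ∘ Fin.partialProd (gen G ∘ fun j => (u j : V)) =
        Fin.partialProd (gen (G.induce K) ∘ u) := by
      funext i
      exact toK_partialProd u i
    rw [this]
    unfold lnk
    ring

end Pool.Agent.Q134.SV
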