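import Pool.Agent.Q134.SV.Cyc
import Pool.Agent.W907.SG.Defs

/-!
Homomorphisms from right-angled Coxeter groups.
-/

set_option autoImplicit false

open scoped Classical

namespace Pool.Agent.Q134.SV

open Pool.Agent.W907.SG (W cox)

variable {V : Type} (G : SimpleGraph V)

/-- the generator of a vertex -/
noncomputable def gen (x : V) : W G := (cox G).simple x

theorem liftable {M : Type} [Monoid M] (ρ : V → M) (h2 : ∀ x, ρ x * ρ x = 1)
    (hc : ∀ x y, G.Adj x y → ρ x * ρ y = ρ y * ρ x) : (cox G).IsLiftable ρ := by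
  intro x y
  have hM : (cox G) x y = if x = y then 1 else if G.Adj x y then 2 else 0 := rfl
  rw [hM]
  split_ifs with h h'
  · subst h
    rw [pow_one, h2]
  · rw [pow_two]
    nth_rewrite 2 [hc x y h']
    rw [mul_assoc, ← mul_assoc (ρ y), h2, one_mul, h2]
  · rw [pow_zero]

/-- the homomorphism defined by its values on the generators -/
noncomputable def lft {M : Type} [Monoid M] (ρ : V → M) (h2 : ∀ x, ρ x * ρ x = 1)
    (hc : ∀ x y, G.Adj x y → ρ x * ρ y = ρ y * ρ x) : W G →* M :=
  (cox G).toCoxeterSystem.lift ⟨ρ, liftable G ρ h2 hc⟩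

theorem lft_gen {M : Type} [Monoid M] (ρ : V → M) (h2 : ∀ x, ρ x * ρ x = 1)
    (hc : ∀ x y, G.Adj x y → ρ x * ρ y = ρ y * ρ x) (x : V) : lft G ρ h2 hc (gen G x) = ρ x :=
  (cox G).toCoxeterSystem.lift_apply_simple (liftable G ρ h2 hc) x

theorem gen_sq (x : V) : gen G x * gen G x = 1 :=
  (cox G).toCoxeterSystem.simple_mul_simple_self x

theorem gen_comm {x y : V} (h : G.Adj x y) : gen G x * gen G y = gen G y * gen G x := by
  have h1 : (gen G x * gen G y) ^ (cox G) x y = 1 :=
    (cox G).toCoxeterSystem.simple_mul_simple_pow x y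
  have hM : (cox G) x y = 2 := by
    change (if x = y then 1 else if G.Adj x y then 2 else 0) = 2
    rw [if_neg h.ne, if_pos h]
  rw [hM, pow_two] at h1
  have h2 : (gen G x * gen G y) * (gen G y * gen G x) = 1 := by
    rw [mul_assoc, ← mul_assoc (gen G y), gen_sq, one_mul, gen_sq]
  exact mul_left_cancel (h1.trans h2.symm)

/-- the parity of the length: the homomorphism `W G → {1, -1}` with `s ↦ -1` for all generators. Its
kernel is the subgroup of the elements which preserve the orientation of the Davis complex. -/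
noncomputable def par : W G →* ℤˣ := lft G (fun _ => -1) (fun _ => by simp) (fun _ _ _ => rfl)

theorem par_gen (x : V) : par G (gen G x) = -1 := lft_gen _ _ _ _ _

theorem gen_induction {p : W G → Prop} (w : W G) (one : p 1)
    (mul : ∀ (w : W G) (x : V), p w → p (gen G x * w)) : p w :=
  (cox G).toCoxeterSystem.simple_induction_left w one mul

/-- a function which changes its sign under all generators is `par`-equivariant -/
theorem equiv_of_gen {n : ℕ} {c : (Fin n → W G) → ℝ}
    (h : ∀ x g, c (fun i => gen G x * g i) = - c g) (w : W G) (g : Fin n → W G) :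
    c (fun i => w * g i) = ((par G w : ℤ) : ℝ) * c g := by
  refine gen_induction G (p := fun w => c (fun i => w * g i) = ((par G w : ℤ) : ℝ) * c g) w ?_ ?_
  · simp
  · intro w x hw
    have : (fun i => gen G x * w * g i) = fun i => gen G x * (w * g i) := by
      funext i; rw [mul_assoc]
    rw [this, h x fun i => w * g i, hw, map_mul, par_gen]
    simp

/-- A bounded, normalised cocycle of degree `n` of `W G` with coefficients in the orientation
character. -/
structure Good (n : ℕ) (c : (Fin (n + 1) → W G) → ℝ) : Prop where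
  gen : ∀ x g, c (fun i => gen G x * g i) = - c g
  coc : ∀ g : Fin (n + 2) → W G, cobd c g = 0
  bdd : ∃ C : ℝ, ∀ g, |c g| ≤ C
  nrm : ∀ g, ∀ i : Fin n, g i.castSucc = g i.succ → c g = 0

variable {G}

/-- a cocycle which pairs nontrivially with a cycle: then all subgroups `H` of finite index which
preserve the orientation have positive simplicial volume -/
theorem not_zeroSV [Fintype V] {m : ℕ} {a : (Fin (m + 1) → V) → ℝ} (ha : IsCyc (m + 1) G a)
    {c : (Fin (m + 2) → W G) → ℝ} (hc : Good G (m + 1) c) (hp : pair (gen G) a c ≠ 0)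
    (H : Subgroup (W G)) (hH : H.index ≠ 0) (hε : H ≤ (par G).ker) : ¬ ZeroSV (m + 1) H := by
  intro hz
  obtain ⟨C, hC⟩ := hc.bdd
  have hεH : ∀ h : H, par G h = 1 := fun h => MonoidHom.mem_ker.1 (hε h.2)
  have k1 : ∀ (h : H) (g : Fin (m + 2) → H),
      c (fun i => ((h * g i : H) : W G)) = c fun i => (g i : W G) := by
    intro h g
    have := equiv_of_gen G hc.gen (h : W G) (fun i => (g i : W G))
    rw [hεH] at this
    simpa using this
  obtain ⟨b, hb, hbc⟩ := hz (fun g => c fun i => (g i : W G)) k1
    (fun g => hc.coc fun i => (g i : W G)) ⟨C, fun g => hC _⟩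
  obtain ⟨b', hb', hbc'⟩ := transfer (par G) H hH hε c (equiv_of_gen G hc.gen) hc.coc b hb hbc
  apply hp
  have h1 := stokes (gen G) (fun x y h => gen_comm G h) ha b' (fun x g => by
    rw [hb', par_gen]; simp)
  have h2 : cobd b' = c := funext hbc'
  rwa [h2] at h1

end Pool.Agent.Q134.SV
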